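import Pool.Agent.Helper97.SIX.Alg9
import Pool.Agent.Helper36.SIX.Affine

/-!
# SIX: the inequality in affine coordinates
-/

set_option autoImplicit false

namespace Pool.Agent.SIX

open Pool.Agent.SL Pool.Agent.Helper64.Vojta NumberField

universe u

theorem affine : ∃ δ : ℝ, 0 < δ ∧ ∀ (k : Type u) [Field k] [NumberField k] (ℓ : Fin 6 → Fin 3 → k),
    GenPos ℓ → NoConic ℓ → ∀ S : Finset (Pl k), ∃ C : ℝ, ∀ y : Fin 2 → AlgebraicClosure k, VZ.dg y ≤ 2 →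
      (∀ i, ∑ j, algebraMap k (VZ.fld y) (ℓ i j) * VZ.crd y j ≠ 0) →
      (∀ i j m n : Fin 6, [i, j, m, n].Nodup →
        lin (vx (ℓ i) (ℓ j) (ℓ m) (ℓ n)) (Fin.cons 1 y : Fin 3 → AlgebraicClosure k) ≠ 0) →
      (∀ M : Fin 6 → k, Exc ℓ M →
        qf (fun i => algebraMap k (AlgebraicClosure k) (M i)) (Fin.cons 1 y : Fin 3 → AlgebraicClosure k) ≠ 0) →
      VZ.lam ℓ S y ≤ (6 - δ) * VZ.hgt y + C :=
  affine_of_alg fun K Ω _ _ _ _ D L hG hC x x' h1 h2 h3 => alg_main D L hG hC x x' h1 h2 h3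

end Pool.Agent.SIX
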