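import Pool.Agent.Helper97.SIX.Alg2

/-!
# SIX: definitions of the exceptional curves

`p i`, `i : Fin 6`, are six linear forms in three variables.
-/

set_option autoImplicit false

namespace Pool.Agent.SIX

open Pool.Agent.SL

variable {F : Type*} [Field F]

/-- any three are independent -/
def GenPos (p : Fin 6 → Fin 3 → F) : Prop :=
  ∀ i j l : Fin 6, i ≠ j → i ≠ l → j ≠ l → br (p i) (p j) (p l) ≠ 0

/-- the six lines are not tangent to a conic (`g` is the equation of the dual conic) -/
def NoConic (p : Fin 6 → Fin 3 → F) : Prop := ∀ g : Fin 6 → F, (∀ i, qf g (p i) = 0) → g = 0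

/-- the conic `M = 0` passes through the common point of the lines `a` and `b` and touches the line `a` there -/
def Tan (M : Fin 6 → F) (a b : Fin 3 → F) : Prop := ∃ c : F, ∀ z, bf M (cr a b) z = c * dot a z

/-- `M = 0` is a smooth conic which touches four of the lines at points lying two by two on the other two lines -/
def Exc (p : Fin 6 → Fin 3 → F) (M : Fin 6 → F) : Prop :=
  dt M ≠ 0 ∧ ∃ t : Equiv.Perm (Fin 6), Tan M (p (t 0)) (p (t 2)) ∧ Tan M (p (t 1)) (p (t 3)) ∧
    Tan M (p (t 4)) (p (t 2)) ∧ Tan M (p (t 5)) (p (t 3))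

end Pool.Agent.SIX
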