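import Pool.Agent.Helper16.SL.Split

/-!
# SIX: pencils of singular conics (quadratic forms on the dual plane)
-/

set_option autoImplicit false

namespace Pool.Agent.SIX

open Pool.Agent.SL Polynomial

section ring

variable {F : Type*} [CommRing F]

/-- the value of the form `m` at the point `x` -/
def dot (m x : Fin 3 → F) : F := m 0 * x 0 + m 1 * x 1 + m 2 * x 2

/-- the common point of the lines `a b` and `c d` -/
def vx (a b c d : Fin 3 → F) : Fin 3 → F := fun i => br b c d * a i - br a c d * b i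

theorem vx_eq (a b c d : Fin 3 → F) : vx a b c d = fun i => br a b c * d i - br a b d * c i := by
  funext i
  fin_cases i <;> simp [vx, br] <;> ring

theorem bf_lin (g : Fin 6 → F) (a b c m n : Fin 3 → F) :
    br a b c * bf g m n = br n b c * bf g m a + br a n c * bf g m b + br a b n * bf g m c := by
  unfold bf br; ring

theorem bf_comm' (g : Fin 6 → F) (a b : Fin 3 → F) : bf g a b = bf g b a := by
  unfold bf; ring

theorem bf_self (g : Fin 6 → F) (a : Fin 3 → F) : bf g a a = 2 * qf g a := by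
  unfold bf qf; ring

theorem bf_vx (g : Fin 6 → F) (a b c d n : Fin 3 → F) :
    bf g (vx a b c d) n = br b c d * bf g a n - br a c d * bf g b n := by
  simp only [bf, vx]; ring

theorem bf_vx' (g : Fin 6 → F) (a b c d n : Fin 3 → F) :
    bf g (vx a b c d) n = br a b c * bf g d n - br a b d * bf g c n := by
  rw [vx_eq]; simp only [bf]; ring

theorem bf_pr (x y m n : Fin 3 → F) : bf (pr x y) m n = dot m x * dot n y + dot n x * dot m y := by
  simp only [bf, pr, dot, Matrix.cons_val]; ring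

theorem qf_pr' (x y m : Fin 3 → F) : qf (pr x y) m = dot m x * dot m y := by
  simp only [qf, pr, dot, Matrix.cons_val]; ring

/-- the form `G1 + X^e G2` -/
noncomputable def pen (G1 G2 : Fin 6 → F) (e : ℕ) : Fin 6 → F[X] := fun i => C (G1 i) + C (G2 i) * X ^ e

/-- constant vector -/
noncomputable def cv (a : Fin 3 → F) : Fin 3 → F[X] := fun i => C (a i)

theorem qf_pen (G1 G2 : Fin 6 → F) (e : ℕ) (a : Fin 3 → F) :
    qf (pen G1 G2 e) (cv a) = C (qf G1 a) + C (qf G2 a) * X ^ e := by
  simp only [qf, pen, cv, map_add, map_mul, map_pow]; ring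

theorem bf_pen (G1 G2 : Fin 6 → F) (e : ℕ) (a b : Fin 3 → F) :
    bf (pen G1 G2 e) (cv a) (cv b) = C (bf G1 a b) + C (bf G2 a b) * X ^ e := by
  simp only [bf, pen, cv, map_add, map_mul, map_ofNat]; ring

end ring

section field

variable {F : Type*} [Field F] [CharZero F]

theorem coefs {m : ℕ} (c : Fin m → F) (n : Fin m → ℕ) (h : ∑ i, C (c i) * X ^ (n i) = (0 : F[X])) (N : ℕ) :
    ∑ i, (if N = n i then c i else 0) = 0 := by
  have h1 := congrArg (fun p => Polynomial.coeff p N) h
  simp only [finset_sum_coeff, coeff_C_mul, coeff_X_pow, mul_ite, mul_one, mul_zero, coeff_zero] at h1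
  exact h1

theorem coef4 {e : ℕ} (he : 0 < e) (c0 c1 c2 c3 : F)
    (h : C c0 + C c1 * X ^ e + C c2 * X ^ (2 * e) + C c3 * X ^ (3 * e) = (0 : F[X])) :
    c0 = 0 ∧ c1 = 0 ∧ c2 = 0 ∧ c3 = 0 := by
  have h1 : ∑ i, C ((![c0, c1, c2, c3] : Fin 4 → F) i) * X ^ ((![0, e, 2 * e, 3 * e] : Fin 4 → ℕ) i) = (0 : F[X]) := by
    rw [← h]
    simp [Fin.sum_univ_succ]
    ring
  have h2 := coefs _ _ h1
  refine ⟨?_, ?_, ?_, ?_⟩
  · have := h2 0
    simpa [Fin.sum_univ_succ, he.ne, he.ne', show ¬ (0 = 2 * e) by omega, show ¬ (0 = 3 * e) by omega] using this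
  · have := h2 e
    simpa [Fin.sum_univ_succ, he.ne, he.ne', show ¬ (e = 2 * e) by omega, show ¬ (e = 3 * e) by omega] using this
  · have := h2 (2 * e)
    simpa [Fin.sum_univ_succ, he.ne, he.ne', show ¬ (2 * e = e) by omega, show ¬ (2 * e = 3 * e) by omega] using this
  · have := h2 (3 * e)
    simpa [Fin.sum_univ_succ, he.ne, he.ne', show ¬ (3 * e = e) by omega, show ¬ (3 * e = 2 * e) by omega] using this

theorem four (g : Fin 6 → F) (a b c d : Fin 3 → F) (habc : br a b c ≠ 0) (habd : br a b d ≠ 0)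
    (hacd : br a c d ≠ 0) (hbcd : br b c d ≠ 0) (ha : qf g a = 0) (hb : qf g b = 0)
    (hc : qf g c = 0) (hd : qf g d = 0) (hg : dt g = 0) :
    (bf g a b = 0 ∧ bf g c d = 0) ∨ (bf g a c = 0 ∧ bf g b d = 0) ∨ (bf g a d = 0 ∧ bf g b c = 0) := by
  have h1 := gram g a b c
  rw [ha, hb, hc, hg] at h1
  have h2 : bf g a b * bf g b c * bf g a c = 0 := by linear_combination h1
  have hdbc : br d b c = br b c d := by unfold br; ring
  have hadc : br a d c = -br a c d := by unfold br; ring
  have h3 := qf_basis g a b c d ha hb hc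
  rw [hd, mul_zero, hdbc, hadc] at h3
  have e1 := bf_lin g a b c c d
  have e2 := bf_lin g a b c b d
  have e3 := bf_lin g a b c a d
  rw [bf_self, hc, hdbc, hadc] at e1
  rw [bf_self, hb, hdbc, hadc] at e2
  rw [bf_self, ha, hdbc, hadc] at e3
  rcases mul_eq_zero.1 h2 with h2 | h2
  · rcases mul_eq_zero.1 h2 with h2 | h2
    · left
      refine ⟨h2, ?_⟩
      rw [h2] at h3
      have : br a b d * (br a b c * bf g c d) = 0 := by
        rw [e1, bf_comm' g c a, bf_comm' g c b]
        linear_combination -h3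
      exact (mul_eq_zero.1 ((mul_eq_zero.1 this).resolve_left habd)).resolve_left habc
    · right; right
      refine ⟨?_, h2⟩
      rw [h2] at h3
      have : br b c d * (br a b c * bf g a d) = 0 := by
        rw [e3]
        linear_combination -h3
      exact (mul_eq_zero.1 ((mul_eq_zero.1 this).resolve_left hbcd)).resolve_left habc
  · right; left
    refine ⟨h2, ?_⟩
    rw [h2] at h3
    have : br a c d * (br a b c * bf g b d) = 0 := by
      rw [e2, bf_comm' g b a]
      linear_combination h3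
    exact (mul_eq_zero.1 ((mul_eq_zero.1 this).resolve_left hacd)).resolve_left habc

/-- the common point of the two lines is the vertex -/
theorem vertex (g : Fin 6 → F) (a b c d : Fin 3 → F) (habc : br a b c ≠ 0) (ha : qf g a = 0) (hb : qf g b = 0)
    (hc : qf g c = 0) (hab : bf g a b = 0) (hcd : bf g c d = 0) (n : Fin 3 → F) :
    bf g (vx a b c d) n = 0 := by
  have h1 : bf g (vx a b c d) a = 0 := by
    rw [bf_vx, bf_self, ha, bf_comm' g b a, hab]; ring
  have h2 : bf g (vx a b c d) b = 0 := by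
    rw [bf_vx, bf_self, hb, hab]; ring
  have h3 : bf g (vx a b c d) c = 0 := by
    rw [bf_vx', bf_self, hc, bf_comm' g d c, hcd]; ring
  have h4 := bf_lin g a b c (vx a b c d) n
  rw [h1, h2, h3] at h4
  have : br a b c * bf g (vx a b c d) n = 0 := by rw [h4]; ring
  exact (mul_eq_zero.1 this).resolve_left habc

/-- a form which vanishes at four points and on one more connection is zero -/
theorem cross_ne (g : Fin 6 → F) (a b c d : Fin 3 → F) (habc : br a b c ≠ 0) (habd : br a b d ≠ 0)
    (hacd : br a c d ≠ 0) (ha : qf g a = 0) (hb : qf g b = 0)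
    (hc : qf g c = 0) (hd : qf g d = 0) (hab : bf g a b = 0) (hne : ∃ m, qf g m ≠ 0) : bf g a c ≠ 0 := by
  intro hac
  have hadc : br a d c = -br a c d := by unfold br; ring
  have h3 := qf_basis g a b c d ha hb hc
  rw [hd, mul_zero, hab, hac, hadc] at h3
  have h4 : bf g b c = 0 := by
    have : br a c d * br a b d * bf g b c = 0 := by linear_combination h3
    exact (mul_eq_zero.1 this).resolve_left (mul_ne_zero hacd habd)
  obtain ⟨m, hm⟩ := hne
  have h5 := qf_basis g a b c m ha hb hc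
  rw [hab, hac, h4] at h5
  have : br a b c ^ 2 * qf g m = 0 := by rw [h5]; ring
  exact hm ((mul_eq_zero.1 this).resolve_left (pow_ne_zero _ habc))

/-- the key computation for pencils -/
theorem pencil (G1 G2 : Fin 6 → F) {e : ℕ} (he : 0 < e) (hdt : dt (pen G1 G2 e) = 0) (P a c : Fin 3 → F)
    (hPac : br P a c ≠ 0) (hP : ∀ n, bf G1 P n = 0) (ha : qf G1 a = 0) (hc : qf G1 c = 0) (hac : bf G1 a c ≠ 0)
    (ha2 : qf G2 a ≠ 0) (hc2 : qf G2 c ≠ 0) (n : Fin 3 → F) : bf G2 P n = 0 := by
  have h0 : qf G1 P = 0 := by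
    have := hP P
    rw [bf_self] at this
    exact (mul_eq_zero.1 this).resolve_left two_ne_zero
  have h1 := gram (pen G1 G2 e) (cv P) (cv a) (cv c)
  rw [hdt, mul_zero] at h1
  simp only [qf_pen, bf_pen, h0, hP, ha, hc, map_zero, zero_add] at h1
  have h2 : C (0 : F) + C (-(qf G2 P * bf G1 a c ^ 2)) * X ^ e +
      C (bf G2 P a * bf G2 P c * bf G1 a c - 2 * qf G2 P * bf G1 a c * bf G2 a c) * X ^ (2 * e) +
      C (4 * qf G2 P * qf G2 a * qf G2 c + bf G2 P a * bf G2 P c * bf G2 a c - qf G2 P * bf G2 a c ^ 2 -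
        qf G2 a * bf G2 P c ^ 2 - qf G2 c * bf G2 P a ^ 2) * X ^ (3 * e) = (0 : F[X]) := by
    rw [← h1]
    simp only [map_add, map_sub, map_neg, map_mul, map_pow, map_ofNat, map_zero]
    ring
  obtain ⟨-, h3, h4, h5⟩ := coef4 he _ _ _ _ h2
  have h6 : qf G2 P = 0 := by
    have : qf G2 P * bf G1 a c ^ 2 = 0 := by linear_combination -h3
    exact (mul_eq_zero.1 this).resolve_right (pow_ne_zero _ hac)
  rw [h6] at h4 h5
  have h7 : bf G2 P a * bf G2 P c = 0 := by
    have : bf G2 P a * bf G2 P c * bf G1 a c = 0 := by linear_combination h4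
    exact (mul_eq_zero.1 this).resolve_right hac
  have h8 : bf G2 P a = 0 ∧ bf G2 P c = 0 := by
    rcases mul_eq_zero.1 h7 with h | h
    · refine ⟨h, ?_⟩
      rw [h] at h5
      have : qf G2 a * bf G2 P c ^ 2 = 0 := by linear_combination -h5
      exact pow_eq_zero_iff two_ne_zero |>.1 ((mul_eq_zero.1 this).resolve_left ha2)
    · refine ⟨?_, h⟩
      rw [h] at h5
      have : qf G2 c * bf G2 P a ^ 2 = 0 := by linear_combination -h5
      exact pow_eq_zero_iff two_ne_zero |>.1 ((mul_eq_zero.1 this).resolve_left hc2)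
  have h9 := bf_lin G2 P a c P n
  rw [bf_self, h6, h8.1, h8.2] at h9
  have : br P a c * bf G2 P n = 0 := by rw [h9]; ring
  exact (mul_eq_zero.1 this).resolve_left hPac

/-- the point lies on the line -/
theorem on_line (x y : Fin 3 → F) (hx : x ≠ 0) (hy : y ≠ 0) (P : Fin 3 → F)
    (h : ∀ n, bf (pr x y) P n = 0) : dot P x = 0 ∧ dot P y = 0 := by
  have key : ∀ (x y : Fin 3 → F), x ≠ 0 → (∀ n, bf (pr x y) P n = 0) → dot P x = 0 → dot P y = 0 := by
    intro x y hx h h0
    obtain ⟨i, hi⟩ := Function.ne_iff.1 hx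
    have h1 := h (Pi.single i 1)
    rw [bf_pr, h0, zero_mul, zero_add] at h1
    have h2 : dot (Pi.single i 1) x = x i := by
      fin_cases i <;> simp [dot]
    rw [h2] at h1
    exact (mul_eq_zero.1 h1).resolve_left hi
  have h' : ∀ n, bf (pr y x) P n = 0 := by
    intro n
    have := h n
    rw [bf_pr] at this ⊢
    linear_combination this
  have h1 := h P
  rw [bf_pr] at h1
  have h2 : dot P x * dot P y = 0 := by
    have : (2 : F) * (dot P x * dot P y) = 0 := by linear_combination h1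
    exact (mul_eq_zero.1 this).resolve_left two_ne_zero
  rcases mul_eq_zero.1 h2 with h3 | h3
  · exact ⟨h3, key x y hx h h3⟩
  · exact ⟨key y x hy h' h3, h3⟩

/-- the blocks `2`, `4` -/
theorem two_four (G1 G2 : Fin 6 → F) {e : ℕ} (he : 0 < e) (hdt : dt (pen G1 G2 e) = 0) (a b c d : Fin 3 → F)
    (habc : br a b c ≠ 0) (habd : br a b d ≠ 0) (hacd : br a c d ≠ 0)
    (ha : qf G1 a = 0) (hb : qf G1 b = 0) (hc : qf G1 c = 0) (hd : qf G1 d = 0) (hne : ∃ m, qf G1 m ≠ 0)
    (hab : bf G1 a b = 0) (hcd : bf G1 c d = 0) (ha2 : qf G2 a ≠ 0) (hc2 : qf G2 c ≠ 0) (n : Fin 3 → F) :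
    bf G1 (vx a b c d) n = 0 ∧ bf G2 (vx a b c d) n = 0 := by
  have hv := vertex G1 a b c d habc ha hb hc hab hcd
  refine ⟨hv n, pencil G1 G2 he hdt _ a c ?_ hv ha hc ?_ ha2 hc2 n⟩
  · have : br (vx a b c d) a c = br a c d * br a b c := by
      simp only [br, vx]; ring
    rw [this]
    exact mul_ne_zero hacd habc
  · exact cross_ne G1 a b c d habc habd hacd ha hb hc hd hab hne

end field

end Pool.Agent.SIX
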