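import Pool.Agent.Helper97.SIX.Alg1

/-!
# SIX: the blocks `3, 3` and a block with one element
-/

set_option autoImplicit false
set_option linter.unusedSectionVars false

namespace Pool.Agent.SIX

open Pool.Agent.SL Polynomial

variable {F : Type*} [Field F] [CharZero F]

/-- `P = s a + t b`, on the line `c d` -/
theorem on_vx (a b c d P x : Fin 3 → F) (s t : F) (hP : ∀ i, P i = s * a i + t * b i) (hs : s ≠ 0)
    (h : br P c d = 0) (hx : dot P x = 0) : dot (vx a b c d) x = 0 := by
  have h1 : s * br a c d + t * br b c d = 0 := by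
    rw [← h]
    simp only [br, hP]
    ring
  have h2 : s * dot (vx a b c d) x = br b c d * dot P x - (s * br a c d + t * br b c d) * dot b x := by
    simp only [dot, vx, hP]
    ring
  rw [hx, h1] at h2
  have : s * dot (vx a b c d) x = 0 := by rw [h2]; ring
  exact (mul_eq_zero.1 this).resolve_left hs

/-- first step for `3, 3` -/
theorem tt1 (G1 G2 : Fin 6 → F) {e : ℕ} (he : 0 < e) (hdt : dt (pen G1 G2 e) = 0) (a b c : Fin 3 → F)
    (habc : br a b c ≠ 0) (ha : qf G1 a = 0) (hb : qf G1 b = 0) (hc : qf G1 c = 0) (hne : ∃ m, qf G1 m ≠ 0)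
    (hab : bf G1 a b = 0) (ha2 : qf G2 a ≠ 0) (hb2 : qf G2 b ≠ 0) (hc2 : qf G2 c ≠ 0) :
    ∃ P : Fin 3 → F, ∃ s t : F, s ≠ 0 ∧ t ≠ 0 ∧ (∀ i, P i = s * a i + t * b i) ∧
      (∀ n, bf G1 P n = 0) ∧ (∀ n, bf G2 P n = 0) := by
  have hac_bc : bf G1 a c ≠ 0 ∨ bf G1 b c ≠ 0 := by
    by_contra hcon
    push Not at hcon
    obtain ⟨m, hm⟩ := hne
    have h5 := qf_basis G1 a b c m ha hb hc
    rw [hab, hcon.1, hcon.2] at h5
    have : br a b c ^ 2 * qf G1 m = 0 := by rw [h5]; ring
    exact hm ((mul_eq_zero.1 this).resolve_left (pow_ne_zero _ habc))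
  have hbac : br b a c ≠ 0 := by
    have : br b a c = -br a b c := by unfold br; ring
    rw [this]
    exact neg_ne_zero.2 habc
  have hbc : bf G1 b c ≠ 0 := by
    intro h0
    have hac : bf G1 a c ≠ 0 := hac_bc.resolve_right (fun h => h h0)
    have hv : ∀ n, bf G1 b n = 0 := by
      intro n
      have h1 := bf_lin G1 a b c b n
      rw [bf_comm' G1 b a, hab, bf_self, hb, h0] at h1
      have : br a b c * bf G1 b n = 0 := by rw [h1]; ring
      exact (mul_eq_zero.1 this).resolve_left habc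
    have h1 := pencil G1 G2 he hdt b a c hbac hv ha hc hac ha2 hc2 b
    rw [bf_self] at h1
    exact hb2 ((mul_eq_zero.1 h1).resolve_left two_ne_zero)
  have hac : bf G1 a c ≠ 0 := by
    intro h0
    have hv : ∀ n, bf G1 a n = 0 := by
      intro n
      have h1 := bf_lin G1 a b c a n
      rw [hab, bf_self, ha, h0] at h1
      have : br a b c * bf G1 a n = 0 := by rw [h1]; ring
      exact (mul_eq_zero.1 this).resolve_left habc
    have h1 := pencil G1 G2 he hdt a b c habc hv hb hc hbc hb2 hc2 a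
    rw [bf_self] at h1
    exact ha2 ((mul_eq_zero.1 h1).resolve_left two_ne_zero)
  set P : Fin 3 → F := fun i => bf G1 b c * a i + (-bf G1 a c) * b i with hPd
  have hbfP : ∀ g : Fin 6 → F, ∀ n, bf g P n = bf G1 b c * bf g a n - bf G1 a c * bf g b n := by
    intro g n
    simp only [hPd]
    generalize bf G1 b c = s
    generalize bf G1 a c = t
    unfold bf
    ring
  have hPv : ∀ n, bf G1 P n = 0 := by
    intro n
    have h1 : bf G1 P a = 0 := by rw [hbfP, bf_self, ha, bf_comm' G1 b a, hab]; ring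
    have h2 : bf G1 P b = 0 := by rw [hbfP, bf_self, hb, hab]; ring
    have h3 : bf G1 P c = 0 := by rw [hbfP]; ring
    have h4 := bf_lin G1 a b c P n
    rw [h1, h2, h3] at h4
    have : br a b c * bf G1 P n = 0 := by rw [h4]; ring
    exact (mul_eq_zero.1 this).resolve_left habc
  refine ⟨P, bf G1 b c, -bf G1 a c, hbc, neg_ne_zero.2 hac, fun i => rfl, hPv, ?_⟩
  refine pencil G1 G2 he hdt P a c ?_ hPv ha hc hac ha2 hc2
  have : br P a c = bf G1 a c * br a b c := by
    simp only [hPd]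
    generalize bf G1 b c = s
    generalize bf G1 a c = t
    unfold br
    ring
  rw [this]
  exact mul_ne_zero hac habc

/-- second step for `3, 3` -/
theorem tt2 (G2 : Fin 6 → F) (P a b c : Fin 3 → F) (habc : br a b c ≠ 0) (ha : qf G2 a = 0) (hb : qf G2 b = 0)
    (hc : qf G2 c = 0) (hne : ∃ m, qf G2 m ≠ 0) (hab : bf G2 a b = 0) (hP : ∀ n, bf G2 P n = 0) : br P a b = 0 := by
  have h1 := bf_lin G2 a b c a P
  have h2 := bf_lin G2 a b c b P
  rw [bf_comm' G2 a P, hP, mul_zero, bf_self, ha, hab] at h1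
  rw [bf_comm' G2 b P, hP, mul_zero, bf_self, hb, bf_comm' G2 b a, hab] at h2
  have hac_bc : bf G2 a c ≠ 0 ∨ bf G2 b c ≠ 0 := by
    by_contra hcon
    push Not at hcon
    obtain ⟨m, hm⟩ := hne
    have h5 := qf_basis G2 a b c m ha hb hc
    rw [hab, hcon.1, hcon.2] at h5
    have : br a b c ^ 2 * qf G2 m = 0 := by rw [h5]; ring
    exact hm ((mul_eq_zero.1 this).resolve_left (pow_ne_zero _ habc))
  have hbr : br P a b = br a b P := by unfold br; ring
  rw [hbr]
  rcases hac_bc with h | h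
  · have : br a b P * bf G2 a c = 0 := by linear_combination -h1
    exact (mul_eq_zero.1 this).resolve_right h
  · have : br a b P * bf G2 b c = 0 := by linear_combination -h2
    exact (mul_eq_zero.1 this).resolve_right h

/-- one of the products is zero -/
theorem three (g : Fin 6 → F) (a b c P : Fin 3 → F) (ha : qf g a = 0) (hb : qf g b = 0)
    (hc : qf g c = 0) (hP0 : P ≠ 0) (hP : ∀ n, bf g P n = 0) : bf g a b = 0 ∨ bf g a c = 0 ∨ bf g b c = 0 := by
  have hdt : dt g = 0 := by
    obtain ⟨i, hi⟩ := Function.ne_iff.1 hP0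
    have hi' : P i ≠ 0 := hi
    obtain ⟨u, v, huv⟩ : ∃ u v : Fin 3 → F, br P u v = P i := by
      fin_cases i
      · exact ⟨![0, 1, 0], ![0, 0, 1], by simp [br]⟩
      · exact ⟨![0, 0, 1], ![1, 0, 0], by simp [br]⟩
      · exact ⟨![1, 0, 0], ![0, 1, 0], by simp [br]⟩
    have h1 := gram g P u v
    have h2 : qf g P = 0 := by
      have := hP P
      rw [bf_self] at this
      exact (mul_eq_zero.1 this).resolve_left two_ne_zero
    rw [h2, hP, hP, huv] at h1
    have : P i ^ 2 * dt g = 0 := by rw [← h1]; ring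
    exact (mul_eq_zero.1 this).resolve_left (pow_ne_zero _ hi')
  have h1 := gram g a b c
  rw [ha, hb, hc, hdt] at h1
  have h2 : bf g a b * (bf g a c * bf g b c) = 0 := by linear_combination h1
  rcases mul_eq_zero.1 h2 with h | h
  · exact Or.inl h
  · exact Or.inr (mul_eq_zero.1 h)

/-- a point is on a line joining two of the three points -/
theorem tt3 (G2 : Fin 6 → F) (P a b c : Fin 3 → F) (habc : br a b c ≠ 0) (ha : qf G2 a = 0) (hb : qf G2 b = 0)
    (hc : qf G2 c = 0) (hne : ∃ m, qf G2 m ≠ 0) (hP0 : P ≠ 0) (hP : ∀ n, bf G2 P n = 0) :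
    br P a b = 0 ∨ br P a c = 0 ∨ br P b c = 0 := by
  rcases three G2 a b c P ha hb hc hP0 hP with h | h | h
  · exact Or.inl (tt2 G2 P a b c habc ha hb hc hne h hP)
  · refine Or.inr (Or.inl (tt2 G2 P a c b ?_ ha hc hb hne h hP))
    have : br a c b = -br a b c := by unfold br; ring
    rw [this]
    exact neg_ne_zero.2 habc
  · refine Or.inr (Or.inr (tt2 G2 P b c a ?_ hb hc ha hne h hP))
    have : br b c a = br a b c := by unfold br; ring
    rwa [this]

/-- a conic through five points is not singular -/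
theorem five (g : Fin 6 → F) (a b c d e : Fin 3 → F) (habc : br a b c ≠ 0) (habd : br a b d ≠ 0)
    (hacd : br a c d ≠ 0) (hbcd : br b c d ≠ 0) (habe : br a b e ≠ 0) (hace : br a c e ≠ 0) (hade : br a d e ≠ 0)
    (hbce : br b c e ≠ 0) (hbde : br b d e ≠ 0) (hcde : br c d e ≠ 0)
    (ha : qf g a = 0) (hb : qf g b = 0)
    (hc : qf g c = 0) (hd : qf g d = 0) (he : qf g e = 0) (hne : ∃ m, qf g m ≠ 0) : dt g ≠ 0 := by
  intro hdt
  have hdbc : br d b c ≠ 0 := by
    have : br d b c = br b c d := by unfold br; ring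
    rwa [this]
  have hadc : br a d c ≠ 0 := by
    have : br a d c = -br a c d := by unfold br; ring
    rw [this]
    exact neg_ne_zero.2 hacd
  rcases split_field g a b c d habc hdbc hadc habd ha hb hc hd hdt hne e he with h | h | h | h | h | h
  · exact habe h
  · exact hcde h
  · exact hace h
  · exact hbde h
  · exact hade h
  · exact hbce h

/-- two points of a conic, whose connection is contained in the conic -/
theorem no_line (g : Fin 6 → F) (c d : Fin 3 → F) (hcr : ∃ n, br c d n ≠ 0) (hc : qf g c = 0) (hd : qf g d = 0)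
    (hcd : bf g c d = 0) : dt g = 0 := by
  obtain ⟨n, hn⟩ := hcr
  have h1 := gram g c d n
  rw [hc, hd, hcd] at h1
  have : br c d n ^ 2 * dt g = 0 := by rw [← h1]; ring
  exact (mul_eq_zero.1 this).resolve_left (pow_ne_zero _ hn)

/-- the form `G1 + X^e B` -/
noncomputable def pen' (G1 : Fin 6 → F) (B : Fin 6 → F[X]) (e : ℕ) : Fin 6 → F[X] := fun i => C (G1 i) + B i * X ^ e

theorem qf_pen' (G1 : Fin 6 → F) (B : Fin 6 → F[X]) (e : ℕ) (a : Fin 3 → F) :
    qf (pen' G1 B e) (cv a) = C (qf G1 a) + qf B (cv a) * X ^ e := by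
  simp only [qf, pen', cv, map_add, map_mul, map_pow]; ring

theorem bf_pen' (G1 : Fin 6 → F) (B : Fin 6 → F[X]) (e : ℕ) (a b : Fin 3 → F) :
    bf (pen' G1 B e) (cv a) (cv b) = C (bf G1 a b) + bf B (cv a) (cv b) * X ^ e := by
  simp only [bf, pen', cv, map_add, map_mul, map_ofNat]; ring

/-- the next coefficient -/
theorem next (G1 : Fin 6 → F) (B : Fin 6 → F[X]) {e : ℕ} (he : 0 < e) (hdt : dt (pen' G1 B e) = 0) (P a c : Fin 3 → F)
    (hP : ∀ n, bf G1 P n = 0) (ha : qf G1 a = 0) (hc : qf G1 c = 0) (hac : bf G1 a c ≠ 0) :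
    qf (fun i => (B i).eval 0) P = 0 := by
  have h0 : qf G1 P = 0 := by
    have := hP P
    rw [bf_self] at this
    exact (mul_eq_zero.1 this).resolve_left two_ne_zero
  have h1 := gram (pen' G1 B e) (cv P) (cv a) (cv c)
  rw [hdt, mul_zero] at h1
  simp only [qf_pen', bf_pen', h0, hP, ha, hc, map_zero, zero_add] at h1
  have h2 : X ^ e * (-(qf B (cv P) * C (bf G1 a c) ^ 2) + X ^ e *
      (bf B (cv P) (cv a) * bf B (cv P) (cv c) * (C (bf G1 a c) + bf B (cv a) (cv c) * X ^ e) -
        2 * qf B (cv P) * C (bf G1 a c) * bf B (cv a) (cv c) - qf B (cv P) * bf B (cv a) (cv c) ^ 2 * X ^ e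
        + X ^ e * (4 * qf B (cv P) * qf B (cv a) * qf B (cv c) - qf B (cv a) * bf B (cv P) (cv c) ^ 2 -
          qf B (cv c) * bf B (cv P) (cv a) ^ 2))) = 0 := by
    rw [← h1]
    ring
  have h3 := (mul_eq_zero.1 h2).resolve_left (pow_ne_zero _ X_ne_zero)
  have h4 := congrArg (Polynomial.eval 0) h3
  simp only [eval_add, eval_neg, eval_mul, eval_pow, eval_X, eval_C, eval_zero, zero_pow he.ne', zero_mul, add_zero] at h4
  have h5 : eval 0 (qf B (cv P)) = qf (fun i => (B i).eval 0) P := by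
    simp only [qf, cv, eval_add, eval_mul, eval_pow, eval_C]
  rw [h5] at h4
  have : qf (fun i => (B i).eval 0) P * bf G1 a c ^ 2 = 0 := by linear_combination -h4
  exact (mul_eq_zero.1 this).resolve_right (pow_ne_zero _ hac)

/-- the block after a block of two elements does not consist of the element `a` alone -/
theorem single (G1 : Fin 6 → F) (B : Fin 6 → F[X]) {e : ℕ} (he : 0 < e) (hdt : dt (pen' G1 B e) = 0) (a b c d : Fin 3 → F)
    (habc : br a b c ≠ 0) (habd : br a b d ≠ 0) (hacd : br a c d ≠ 0)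
    (ha : qf G1 a = 0) (hb : qf G1 b = 0) (hc : qf G1 c = 0) (hd : qf G1 d = 0) (hne : ∃ m, qf G1 m ≠ 0)
    (hab : bf G1 a b = 0) (hcd : bf G1 c d = 0) (G2 : Fin 6 → F) (hB : ∀ i, (B i).eval 0 = G2 i)
    (hc2 : qf G2 c = 0) (hd2 : qf G2 d = 0) : dt G2 = 0 := by
  have hv := vertex G1 a b c d habc ha hb hc hab hcd
  have h1 := next G1 B he hdt _ a c hv ha hc (cross_ne G1 a b c d habc habd hacd ha hb hc hd hab hne)
  simp only [hB] at h1
  have h2 : qf (fun i => G2 i) (vx a b c d) = -(br a b c * br a b d * bf G2 c d) + br a b c ^ 2 * qf G2 d +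
      br a b d ^ 2 * qf G2 c := by
    rw [vx_eq]
    generalize br a b c = s
    generalize br a b d = t
    unfold qf bf
    ring
  rw [h2, hc2, hd2] at h1
  have h3 : bf G2 c d = 0 := by
    have : br a b c * br a b d * bf G2 c d = 0 := by linear_combination -h1
    exact (mul_eq_zero.1 this).resolve_left (mul_ne_zero habc habd)
  refine no_line G2 c d ⟨a, ?_⟩ hc2 hd2 h3
  have : br c d a = br a c d := by unfold br; ring
  rwa [this]

end Pool.Agent.SIX
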