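import Pool.Agent.Helper97.SIX.Alg2

/-!
# SIX: the blocks `2, 2, 2`
-/

set_option autoImplicit false
set_option linter.unusedSectionVars false

namespace Pool.Agent.SIX

open Pool.Agent.SL Polynomial

variable {F : Type*} [Field F] [CharZero F]

theorem qf_coord (g : Fin 6 → F) (a b c n : Fin 3 → F) : br a b c ^ 2 * qf g n =
    br n b c ^ 2 * qf g a + br a n c ^ 2 * qf g b + br a b n ^ 2 * qf g c +
      br n b c * br a n c * bf g a b + br a n c * br a b n * bf g b c + br n b c * br a b n * bf g a c := by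
  have h1 : br a b c ^ 2 * qf g n = qf g fun i => br a b c * n i := by
    unfold qf; ring
  have h2 : (fun i => br a b c * n i) = fun i => br n b c * a i + br a n c * b i + br a b n * c i :=
    funext fun i => br_smul a b c n i
  rw [h1, h2, qf_comb]

/-- the form `G1 + X^a G2 + X^b G3` -/
noncomputable def pen3 (G1 G2 G3 : Fin 6 → F) (a b : ℕ) : Fin 6 → F[X] :=
  fun i => C (G1 i) + C (G2 i) * X ^ a + C (G3 i) * X ^ b

theorem qf_pen3 (G1 G2 G3 : Fin 6 → F) (a b : ℕ) (u : Fin 3 → F) :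
    qf (pen3 G1 G2 G3 a b) (cv u) = C (qf G1 u) + C (qf G2 u) * X ^ a + C (qf G3 u) * X ^ b := by
  simp only [qf, pen3, cv, map_add, map_mul, map_pow]; ring

theorem bf_pen3 (G1 G2 G3 : Fin 6 → F) (a b : ℕ) (u v : Fin 3 → F) :
    bf (pen3 G1 G2 G3 a b) (cv u) (cv v) = C (bf G1 u v) + C (bf G2 u v) * X ^ a + C (bf G3 u v) * X ^ b := by
  simp only [bf, pen3, cv, map_add, map_mul, map_ofNat]; ring

theorem next3 (G1 G2 G3 : Fin 6 → F) {a b : ℕ} (ha : 0 < a) (hab : a < b) (hdt : dt (pen3 G1 G2 G3 a b) = 0)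
    (P u v : Fin 3 → F) (hP : ∀ n, bf G1 P n = 0) (hu : qf G1 u = 0) (hv : qf G1 v = 0) (huv : bf G1 u v ≠ 0) :
    qf G2 P = 0 := by
  have h1 : pen3 G1 G2 G3 a b = pen' G1 (fun i => C (G2 i) + C (G3 i) * X ^ (b - a)) a := by
    funext i
    simp only [pen3, pen', add_mul]
    rw [mul_assoc, ← pow_add, Nat.sub_add_cancel hab.le, add_assoc]
  rw [h1] at hdt
  have h2 := next G1 _ ha hdt P u v hP hu hv huv
  have h3 : (fun i => eval 0 (C (G2 i) + C (G3 i) * X ^ (b - a))) = G2 := by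
    funext i
    simp [zero_pow (show b - a ≠ 0 by omega)]
  rwa [h3] at h2

/-- the first form consists of the lines `c2 c3` and `c4 c5` -/
theorem caseA (G1 G2 G3 : Fin 6 → F) {a b : ℕ} (ha : 0 < a) (hab : a < b) (hdt : dt (pen3 G1 G2 G3 a b) = 0)
    (c2 c3 c4 c5 : Fin 3 → F) (h234 : br c2 c3 c4 ≠ 0) (h235 : br c2 c3 c5 ≠ 0) (h245 : br c2 c4 c5 ≠ 0)
    (h345 : br c3 c4 c5 ≠ 0)
    (g12 : qf G1 c2 = 0) (g13 : qf G1 c3 = 0) (g14 : qf G1 c4 = 0) (g15 : qf G1 c5 = 0) (hne : ∃ m, qf G1 m ≠ 0)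
    (g123 : bf G1 c2 c3 = 0) (g145 : bf G1 c4 c5 = 0)
    (g22 : qf G2 c2 ≠ 0) (g24 : qf G2 c4 = 0) (g25 : qf G2 c5 = 0)
    (g32 : qf G3 c2 = 0) (g33 : qf G3 c3 = 0) (g34 : qf G3 c4 ≠ 0) (n : Fin 3 → F) :
    bf G1 (vx c2 c3 c4 c5) n = 0 ∧ bf G2 (vx c2 c3 c4 c5) n = 0 ∧ bf G3 (vx c2 c3 c4 c5) n = 0 := by
  set P := vx c2 c3 c4 c5 with hP
  have hv := vertex G1 c2 c3 c4 c5 h234 g12 g13 g14 g123 g145
  have hε := cross_ne G1 c2 c3 c4 c5 h234 h235 h245 g12 g13 g14 g15 g123 hne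
  have h1 : qf G2 P = 0 := next3 G1 G2 G3 ha hab hdt P c2 c4 hv g12 g14 hε
  have h1P : qf G1 P = 0 := by
    have := hv P
    rw [bf_self] at this
    exact (mul_eq_zero.1 this).resolve_left two_ne_zero
  have h2 : bf G2 c4 c5 = 0 := by
    have h3 : qf G2 P = -(br c2 c3 c4 * br c2 c3 c5 * bf G2 c4 c5) + br c2 c3 c4 ^ 2 * qf G2 c5 +
        br c2 c3 c5 ^ 2 * qf G2 c4 := by
      rw [hP, vx_eq]
      generalize br c2 c3 c4 = s
      generalize br c2 c3 c5 = t
      unfold qf bf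
      ring
    rw [h1, g24, g25] at h3
    have : br c2 c3 c4 * br c2 c3 c5 * bf G2 c4 c5 = 0 := by linear_combination h3
    exact (mul_eq_zero.1 this).resolve_left (mul_ne_zero h234 h235)
  have h3 : bf G2 P c4 = 0 := by
    rw [hP, bf_vx', bf_self, g24, bf_comm' G2 c5 c4, h2]; ring
  have hbrP : br P c2 c4 ≠ 0 := by
    have : br P c2 c4 = br c2 c4 c5 * br c2 c3 c4 := by
      simp only [br, hP, vx]; ring
    rw [this]
    exact mul_ne_zero h245 h234
  have h4 := gram (pen3 G1 G2 G3 a b) (cv P) (cv c2) (cv c4)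
  rw [hdt, mul_zero] at h4
  have hv' : ∀ n, bf G1 P n = 0 := hv
  simp only [qf_pen3, bf_pen3, h1P, hv', g12, g14, h1, h3, g24, g32, map_zero, zero_add, zero_mul, add_zero] at h4
  -- first `qf G3 P = 0`
  have h5 : X ^ b * (-(C (qf G3 P) * C (bf G1 c2 c4) ^ 2) + X ^ a *
      (4 * C (qf G3 P) * C (qf G2 c2) * C (qf G3 c4) * X ^ b
        + (C (bf G2 P c2) + C (bf G3 P c2) * X ^ (b - a)) * (C (bf G1 c2 c4) + C (bf G2 c2 c4) * X ^ a +
          C (bf G3 c2 c4) * X ^ b) * C (bf G3 P c4)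
        - C (qf G3 P) * (C (bf G2 c2 c4) + C (bf G3 c2 c4) * X ^ (b - a)) *
          (2 * C (bf G1 c2 c4) + C (bf G2 c2 c4) * X ^ a + C (bf G3 c2 c4) * X ^ b)
        - C (qf G2 c2) * C (bf G3 P c4) ^ 2 * X ^ b
        - C (qf G3 c4) * (C (bf G2 P c2) + C (bf G3 P c2) * X ^ (b - a)) *
          (C (bf G2 P c2) * X ^ a + C (bf G3 P c2) * X ^ b))) = 0 := by
    rw [← h4]
    obtain ⟨d, rfl⟩ := Nat.exists_eq_add_of_lt hab
    have e1 : a + d + 1 - a = d + 1 := by omega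
    rw [e1]
    ring
  have h6 := (mul_eq_zero.1 h5).resolve_left (pow_ne_zero _ X_ne_zero)
  have h7 := congrArg (Polynomial.eval 0) h6
  simp only [eval_add, eval_neg, eval_mul, eval_pow, eval_X, eval_C, eval_zero, zero_pow ha.ne', zero_mul, add_zero] at h7
  have h8 : qf G3 P = 0 := by
    have : qf G3 P * bf G1 c2 c4 ^ 2 = 0 := by linear_combination -h7
    exact (mul_eq_zero.1 this).resolve_right (pow_ne_zero _ hε)
  have h9 : bf G3 c2 c3 = 0 := by
    have h3 : qf G3 P = -(br c3 c4 c5 * br c2 c4 c5 * bf G3 c2 c3) + br c3 c4 c5 ^ 2 * qf G3 c2 +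
        br c2 c4 c5 ^ 2 * qf G3 c3 := by
      show qf G3 (fun i => br c3 c4 c5 * c2 i - br c2 c4 c5 * c3 i) = _
      generalize br c3 c4 c5 = s
      generalize br c2 c4 c5 = t
      unfold qf bf
      ring
    rw [h8, g32, g33] at h3
    have : br c3 c4 c5 * br c2 c4 c5 * bf G3 c2 c3 = 0 := by linear_combination h3
    exact (mul_eq_zero.1 this).resolve_left (mul_ne_zero h345 h245)
  have h10 : bf G3 P c2 = 0 := by
    rw [hP, bf_vx, bf_self, g32, bf_comm' G3 c3 c2, h9]; ring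
  simp only [h8, h10, map_zero, zero_mul, mul_zero, zero_add, add_zero, sub_zero] at h4
  -- now the two remaining numbers
  have h11 : ∑ i, C ((![bf G2 P c2 * bf G3 P c4 * bf G1 c2 c4,
      bf G2 P c2 * bf G3 P c4 * bf G2 c2 c4 - qf G3 c4 * bf G2 P c2 ^ 2,
      bf G2 P c2 * bf G3 P c4 * bf G3 c2 c4 - qf G2 c2 * bf G3 P c4 ^ 2] : Fin 3 → F) i) *
        X ^ ((![a + b, 2 * a + b, a + 2 * b] : Fin 3 → ℕ) i) = (0 : F[X]) := by
    rw [← h4]
    simp only [Fin.sum_univ_succ, Fin.sum_univ_zero, Matrix.cons_val_zero, Matrix.cons_val_succ, map_sub, map_mul,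
      map_pow, Fin.isValue, add_zero]
    ring
  have h12 := coefs _ _ h11
  have h13 := h12 (a + b)
  have h14 := h12 (2 * a + b)
  have h15 := h12 (a + 2 * b)
  simp only [Fin.sum_univ_succ, Fin.sum_univ_zero, Matrix.cons_val_zero, Matrix.cons_val_succ, if_true, add_zero,
    show ¬ (a + b = 2 * a + b) by omega, show ¬ (a + b = a + 2 * b) by omega, if_false] at h13
  simp only [Fin.sum_univ_succ, Fin.sum_univ_zero, Matrix.cons_val_zero, Matrix.cons_val_succ, if_true, add_zero,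
    show ¬ (2 * a + b = a + b) by omega, show ¬ (2 * a + b = a + 2 * b) by omega, if_false, zero_add] at h14
  simp only [Fin.sum_univ_succ, Fin.sum_univ_zero, Matrix.cons_val_zero, Matrix.cons_val_succ, if_true, add_zero,
    show ¬ (a + 2 * b = a + b) by omega, show ¬ (a + 2 * b = 2 * a + b) by omega, if_false, zero_add] at h15
  have h16 : bf G2 P c2 * bf G3 P c4 = 0 := (mul_eq_zero.1 h13).resolve_right hε
  have h17 : bf G2 P c2 = 0 := by
    rw [h16] at h14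
    have : qf G3 c4 * bf G2 P c2 ^ 2 = 0 := by linear_combination -h14
    exact pow_eq_zero_iff two_ne_zero |>.1 ((mul_eq_zero.1 this).resolve_left g34)
  have h18 : bf G3 P c4 = 0 := by
    rw [h16] at h15
    have : qf G2 c2 * bf G3 P c4 ^ 2 = 0 := by linear_combination -h15
    exact pow_eq_zero_iff two_ne_zero |>.1 ((mul_eq_zero.1 this).resolve_left g22)
  refine ⟨hv n, ?_, ?_⟩
  · have h9 := bf_lin G2 P c2 c4 P n
    rw [bf_self, h1, h17, h3] at h9
    have : br P c2 c4 * bf G2 P n = 0 := by rw [h9]; ring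
    exact (mul_eq_zero.1 this).resolve_left hbrP
  · have h9 := bf_lin G3 P c2 c4 P n
    rw [bf_self, h8, h10, h18] at h9
    have : br P c2 c4 * bf G3 P n = 0 := by rw [h9]; ring
    exact (mul_eq_zero.1 this).resolve_left hbrP

end Pool.Agent.SIX
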