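import Pool.Agent.Helper97.SIX.Alg3
import Pool.Agent.Helper97.SIX.Defs

/-!
# SIX: the blocks `2, 2, 2`, the exceptional conic
-/

set_option autoImplicit false
set_option linter.unusedSectionVars false

namespace Pool.Agent.SIX

open Pool.Agent.SL Polynomial

variable {F : Type*} [Field F]

/-- the two lines through the double points -/
def c1 (p : Fin 6 → Fin 3 → F) : Fin 3 → F := vx (p 2) (p 4) (p 3) (p 5)

/-- the two lines through the double points -/
def c3 (p : Fin 6 → Fin 3 → F) : Fin 3 → F := vx (p 0) (p 2) (p 1) (p 3)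

/-- the third line -/
def cT (p : Fin 6 → Fin 3 → F) : Fin 3 → F :=
  fun j => br (c1 p) (c3 p) (p 3) * p 2 j + br (c1 p) (c3 p) (p 2) * p 3 j

/-- coordinates -/
def cκ (p : Fin 6 → Fin 3 → F) : F := br (p 2) (c3 p) (cT p) / br (c1 p) (c3 p) (p 2)

/-- coordinates -/
def cl (p : Fin 6 → Fin 3 → F) : F := br (c1 p) (p 2) (cT p) / br (c1 p) (c3 p) (p 2)

/-- coordinates -/
def cμ (p : Fin 6 → Fin 3 → F) : F := br (c1 p) (p 0) (cT p) / br (c1 p) (c3 p) (p 0)

/-- the conic `T² - λ² Q² - 2 κ μ P Q - κ² P²` -/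
def cM (P Q T : Fin 3 → F) (κ l μ : F) : Fin 6 → F :=
  fun i => pr T T i - l ^ 2 * pr Q Q i - 2 * κ * μ * pr P Q i - κ ^ 2 * pr P P i

theorem qf_cM (P Q T : Fin 3 → F) (κ l μ : F) (x : Fin 3 → F) :
    qf (cM P Q T κ l μ) x = dot T x ^ 2 - l ^ 2 * dot Q x ^ 2 - 2 * κ * μ * (dot P x * dot Q x) -
      κ ^ 2 * dot P x ^ 2 := by
  simp only [cM, qf, pr, dot, Matrix.cons_val]; ring

theorem bf_cM (P Q T : Fin 3 → F) (κ l μ : F) (n z : Fin 3 → F) :
    bf (cM P Q T κ l μ) n z = 2 * dot T n * dot T z - 2 * l ^ 2 * dot Q n * dot Q z -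
      2 * κ * μ * (dot P n * dot Q z + dot Q n * dot P z) - 2 * κ ^ 2 * dot P n * dot P z := by
  simp only [cM, bf, pr, dot, Matrix.cons_val]; ring

theorem dt_cM (P Q T : Fin 3 → F) (κ l μ : F) :
    dt (cM P Q T κ l μ) = 4 * κ ^ 2 * (l ^ 2 - μ ^ 2) * br P Q T ^ 2 := by
  simp only [cM, dt, pr, br, Matrix.cons_val]; ring

theorem tan_gen (P Q T a b : Fin 3 → F) (κ l μ ca cb : F) (ha : ∀ i, ca * a i = T i + κ * P i + μ * Q i)
    (hb : ∀ i, cb * b i = T i + κ * P i + l * Q i) (hne : μ ≠ l) (M : Fin 6 → F)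
    (hM : ∀ n z, bf M n z = 2 * dot T n * dot T z - 2 * l ^ 2 * dot Q n * dot Q z -
      2 * κ * μ * (dot P n * dot Q z + dot Q n * dot P z) - 2 * κ ^ 2 * dot P n * dot P z) : Tan M a b := by
  refine ⟨-2 * κ * dot P (cr a b) * ca, fun z => ?_⟩
  have h1 : dot T (cr a b) + κ * dot P (cr a b) + μ * dot Q (cr a b) = 0 := by
    have h0 : ca * dot a (cr a b) = dot T (cr a b) + κ * dot P (cr a b) + μ * dot Q (cr a b) := by
      simp only [dot]
      linear_combination (cr a b 0) * ha 0 + (cr a b 1) * ha 1 + (cr a b 2) * ha 2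
    have h2 : dot a (cr a b) = 0 := by
      simp only [dot, cr, Matrix.cons_val]; ring
    rw [← h0, h2, mul_zero]
  have h2 : dot T (cr a b) + κ * dot P (cr a b) + l * dot Q (cr a b) = 0 := by
    have h0 : cb * dot b (cr a b) = dot T (cr a b) + κ * dot P (cr a b) + l * dot Q (cr a b) := by
      simp only [dot]
      linear_combination (cr a b 0) * hb 0 + (cr a b 1) * hb 1 + (cr a b 2) * hb 2
    have h2 : dot b (cr a b) = 0 := by
      simp only [dot, cr, Matrix.cons_val]; ring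
    rw [← h0, h2, mul_zero]
  have h3 : dot Q (cr a b) = 0 := by
    have : (μ - l) * dot Q (cr a b) = 0 := by linear_combination h1 - h2
    exact (mul_eq_zero.1 this).resolve_left (sub_ne_zero.2 hne)
  have h4 : dot T (cr a b) = -κ * dot P (cr a b) := by
    rw [h3] at h1
    linear_combination h1
  have h5 : ca * dot a z = dot T z + κ * dot P z + μ * dot Q z := by
    simp only [dot]
    linear_combination (z 0) * ha 0 + (z 1) * ha 1 + (z 2) * ha 2
  rw [hM, h3, h4]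
  linear_combination (2 * κ * dot P (cr a b)) * h5

variable [CharZero F]

theorem harm (g : Fin 6 → F) (P Q u v : Fin 3 → F) (hPuv : br P u v ≠ 0) (hP : ∀ n, bf g P n = 0) (hu : qf g u = 0)
    (hv : qf g v = 0) : br P Q v * bf g Q u + br P Q u * bf g Q v = 0 := by
  have h1 := bf_lin g P u v u Q
  have h2 := bf_lin g P u v v Q
  rw [bf_comm' g u P, hP, bf_self, hu] at h1
  rw [bf_comm' g v P, hP, bf_self, hv, bf_comm' g v u] at h2
  have h3 : br P u v * (br P Q v * bf g Q u + br P Q u * bf g Q v) = 0 := by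
    rw [bf_comm' g Q u, bf_comm' g Q v]
    have e1 : br P u Q = -br P Q u := by unfold br; ring
    rw [e1] at h1
    linear_combination (br P Q v) * h1 + (br P Q u) * h2
  exact (mul_eq_zero.1 h3).resolve_left hPuv

theorem qf_harm (g : Fin 6 → F) (P u v : Fin 3 → F) (Q : Fin 3 → F) (hP : ∀ n, bf g P n = 0) (hu : qf g u = 0)
    (hv : qf g v = 0) : br P u v ^ 2 * qf g Q = -(br P Q u * br P Q v) * bf g u v := by
  have h1 := qf_coord g P u v Q
  have h2 : qf g P = 0 := by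
    have := hP P
    rw [bf_self] at this
    exact (mul_eq_zero.1 this).resolve_left two_ne_zero
  rw [h2, hu, hv, hP, hP] at h1
  rw [h1]
  have e1 : br P u Q = -br P Q u := by unfold br; ring
  rw [e1]
  ring

/-- the relations for the exponents `0 < a < b` -/
theorem rel_exp (G1 G2 G3 : Fin 6 → F) {a b : ℕ} (ha : 0 < a) (hab : a < b) (hdt : dt (pen3 G1 G2 G3 a b) = 0)
    (P Q T : Fin 3 → F) (h1P : ∀ n, bf G1 P n = 0) (h3Q : ∀ n, bf G3 Q n = 0) (h2P : qf G2 P = 0) (h2Q : qf G2 Q = 0)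
    (h1QT : bf G1 Q T = 0) (h3PT : bf G3 P T = 0) (hp : qf G1 Q ≠ 0) (hp2 : qf G1 T ≠ 0) (hq : qf G3 P ≠ 0)
    (hq2 : qf G3 T ≠ 0) :
    4 * qf G3 P * qf G1 Q * qf G1 T - qf G1 Q * bf G2 P T ^ 2 - qf G1 T * bf G2 P Q ^ 2 = 0 ∧
    4 * qf G3 P * qf G1 Q * qf G2 T + bf G2 P Q * bf G2 Q T * bf G2 P T - qf G2 T * bf G2 P Q ^ 2 = 0 ∧
    4 * qf G3 P * qf G1 Q * qf G3 T - qf G3 P * bf G2 Q T ^ 2 - qf G3 T * bf G2 P Q ^ 2 = 0 := by
  have h1PP : qf G1 P = 0 := by
    have := h1P P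
    rw [bf_self] at this
    exact (mul_eq_zero.1 this).resolve_left two_ne_zero
  have h3QQ : qf G3 Q = 0 := by
    have := h3Q Q
    rw [bf_self] at this
    exact (mul_eq_zero.1 this).resolve_left two_ne_zero
  have h3PQ : bf G3 P Q = 0 := by rw [bf_comm', h3Q]
  have h4 := gram (pen3 G1 G2 G3 a b) (cv P) (cv Q) (cv T)
  rw [hdt, mul_zero] at h4
  simp only [qf_pen3, bf_pen3, h1PP, h1P, h3Q, h3QQ, h3PQ, h2P, h2Q, h1QT, h3PT, map_zero, zero_add, zero_mul,
    add_zero] at h4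
  have h5 : ∑ i, C ((![4 * qf G3 P * qf G1 Q * qf G1 T, 4 * qf G3 P * qf G1 Q * qf G2 T, 4 * qf G3 P * qf G1 Q * qf G3 T,
      bf G2 P Q * bf G2 Q T * bf G2 P T - qf G2 T * bf G2 P Q ^ 2, -(qf G3 P * bf G2 Q T ^ 2) - qf G3 T * bf G2 P Q ^ 2,
      -(qf G1 Q * bf G2 P T ^ 2) - qf G1 T * bf G2 P Q ^ 2] : Fin 6 → F) i) *
        X ^ ((![b, a + b, 2 * b, 3 * a, 2 * a + b, 2 * a] : Fin 6 → ℕ) i) = (0 : F[X]) := by
    rw [← h4]
    simp only [Fin.sum_univ_succ, Fin.sum_univ_zero, Matrix.cons_val_zero, Matrix.cons_val_succ, map_sub, map_mul,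
      map_pow, map_neg, map_ofNat, Fin.isValue, add_zero]
    ring
  have h6 := coefs _ _ h5
  simp only [Fin.sum_univ_succ, Fin.sum_univ_zero, Matrix.cons_val_zero, Matrix.cons_val_succ, add_zero] at h6
  have n1 : 4 * qf G3 P * qf G1 Q * qf G1 T ≠ 0 := mul_ne_zero (mul_ne_zero (mul_ne_zero (by norm_num) hq) hp) (by assumption)
  have n2 : 4 * qf G3 P * qf G1 Q * qf G3 T ≠ 0 := mul_ne_zero (mul_ne_zero (mul_ne_zero (by norm_num) hq) hp) (by assumption)
  have hb : b = 2 * a := by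
    by_contra hb
    have h7 := h6 b
    simp only [if_true, show ¬ (b = a + b) by omega, show ¬ (b = 2 * b) by omega, show ¬ (b = 2 * a + b) by omega,
      show ¬ (b = 2 * a) from hb, if_false, zero_add, add_zero] at h7
    by_cases h3 : b = 3 * a
    · have h8 := h6 (2 * b)
      simp only [if_true, show ¬ (2 * b = b) by omega, show ¬ (2 * b = a + b) by omega, show ¬ (2 * b = 3 * a) by omega,
        show ¬ (2 * b = 2 * a + b) by omega, show ¬ (2 * b = 2 * a) by omega, if_false, zero_add, add_zero] at h8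
      exact n2 h8
    · simp only [h3, if_false, add_zero] at h7
      exact n1 h7
  subst hb
  have h7 := h6 (2 * a)
  have h8 := h6 (3 * a)
  have h9 := h6 (2 * (2 * a))
  simp only [if_true, show ¬ (2 * a = a + 2 * a) by omega, show ¬ (2 * a = 2 * (2 * a)) by omega,
    show ¬ (2 * a = 3 * a) by omega, show ¬ (2 * a = 2 * a + 2 * a) by omega, if_false, zero_add, add_zero] at h7
  simp only [if_true, show ¬ (3 * a = 2 * a) by omega, show 3 * a = a + 2 * a by omega,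
    show ¬ (a + 2 * a = 2 * (2 * a)) by omega, show ¬ (a + 2 * a = 2 * a) by omega,
    show ¬ (a + 2 * a = 2 * a + 2 * a) by omega, if_false, zero_add, add_zero] at h8
  simp only [if_true, show ¬ (2 * (2 * a) = 2 * a) by omega, show ¬ (2 * (2 * a) = a + 2 * a) by omega,
    show ¬ (2 * (2 * a) = 3 * a) by omega, show (2 * (2 * a) = 2 * a + 2 * a) by omega,
    show ¬ (2 * a + 2 * a = 2 * a) by omega, show ¬ (2 * a + 2 * a = a + 2 * a) by omega,
    show ¬ (2 * a + 2 * a = 3 * a) by omega, if_false, zero_add, add_zero] at h9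
  refine ⟨?_, ?_, ?_⟩
  · linear_combination h7
  · linear_combination h8
  · linear_combination h9

/-- the discriminant vanishes -/
theorem disc_zero (G1 G2 G3 : Fin 6 → F) (P Q T n : Fin 3 → F) (h1P : ∀ n, bf G1 P n = 0) (h3Q : ∀ n, bf G3 Q n = 0)
    (h2P : qf G2 P = 0) (h2Q : qf G2 Q = 0)
    (h1QT : bf G1 Q T = 0) (h3PT : bf G3 P T = 0) (hp : qf G1 Q ≠ 0) (hq : qf G3 P ≠ 0)
    (hq2 : qf G3 T ≠ 0)
    (e1 : 4 * qf G3 P * qf G1 Q * qf G1 T - qf G1 Q * bf G2 P T ^ 2 - qf G1 T * bf G2 P Q ^ 2 = 0)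
    (e2 : 4 * qf G3 P * qf G1 Q * qf G2 T + bf G2 P Q * bf G2 Q T * bf G2 P T - qf G2 T * bf G2 P Q ^ 2 = 0)
    (e3 : 4 * qf G3 P * qf G1 Q * qf G3 T - qf G3 P * bf G2 Q T ^ 2 - qf G3 T * bf G2 P Q ^ 2 = 0)
    (hD : br P Q T ≠ 0) (hn : br P Q n ≠ 0) (n1 : qf G1 n ≠ 0) (n2 : qf G2 n = 0) (n3 : qf G3 n = 0) :
    4 * qf G3 P * qf G1 Q = bf G2 P Q ^ 2 := by
  have h1PP : qf G1 P = 0 := by
    have := h1P P
    rw [bf_self] at this
    exact (mul_eq_zero.1 this).resolve_left two_ne_zero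
  have h3QQ : qf G3 Q = 0 := by
    have := h3Q Q
    rw [bf_self] at this
    exact (mul_eq_zero.1 this).resolve_left two_ne_zero
  have h3PQ : bf G3 P Q = 0 := by rw [bf_comm', h3Q]
  have f1 := qf_coord G1 P Q T n
  have f2 := qf_coord G2 P Q T n
  have f3 := qf_coord G3 P Q T n
  rw [h1PP, h1P, h1P, h1QT] at f1
  rw [h2P, h2Q, n2] at f2
  rw [h3QQ, h3PQ, h3Q, h3PT, n3] at f3
  set p := qf G1 Q
  set p2 := qf G1 T
  set q := qf G3 P
  set q2 := qf G3 T
  set r := bf G2 P Q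
  set u := bf G2 P T
  set v := bf G2 Q T
  set w := qf G2 T
  set y1 := br n Q T
  set y3 := br P n T
  set yT := br P Q n
  by_contra hΔ
  have hΔ' : 4 * q * p - r ^ 2 ≠ 0 := sub_ne_zero.2 hΔ
  set Δ := 4 * q * p - r ^ 2 with hΔd
  have g1 : Δ * p2 = p * u ^ 2 := by rw [hΔd]; linear_combination e1
  have g2 : Δ * w = -(r * u * v) := by rw [hΔd]; linear_combination e2
  have g3 : Δ * q2 = q * v ^ 2 := by rw [hΔd]; linear_combination e3
  have f3' : q * y1 ^ 2 + q2 * yT ^ 2 = 0 := by linear_combination -f3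
  have f2' : r * y1 * y3 + u * y1 * yT + v * y3 * yT + w * yT ^ 2 = 0 := by linear_combination -f2
  have hv : v ≠ 0 := by
    intro h
    rw [h] at g3
    have : Δ * q2 = 0 := by rw [g3]; ring
    rcases mul_eq_zero.1 this with h | h
    · exact hΔ' h
    · exact hq2 h
  have k1 : Δ * y1 ^ 2 = -(v ^ 2 * yT ^ 2) := by
    have : q * (Δ * y1 ^ 2 + v ^ 2 * yT ^ 2) = 0 := by linear_combination Δ * f3' - yT ^ 2 * g3
    have := (mul_eq_zero.1 this).resolve_left hq
    linear_combination this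
  have k2 : v * w * yT ^ 2 = r * u * y1 ^ 2 := by
    have : Δ * (v * w * yT ^ 2 - r * u * y1 ^ 2) = 0 := by linear_combination v * yT ^ 2 * g2 - r * u * k1
    have := (mul_eq_zero.1 this).resolve_left hΔ'
    linear_combination this
  have k3 : (r * y1 + v * yT) * (v * y3 + u * y1) = 0 := by
    linear_combination v * f2' - k2
  have hy1 : y1 ≠ 0 := by
    intro h
    rw [h] at f3'
    have : q2 * yT ^ 2 = 0 := by linear_combination f3'
    rcases mul_eq_zero.1 this with h | h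
    · exact hq2 h
    · exact hn (pow_eq_zero_iff two_ne_zero |>.1 h)
  rcases mul_eq_zero.1 k3 with k4 | k4
  · have : 4 * q * p * y1 ^ 2 = 0 := by
      rw [hΔd] at k1
      linear_combination k1 + (r * y1 - v * yT) * k4
    exact mul_ne_zero (mul_ne_zero (mul_ne_zero (by norm_num) hq) hp) (pow_ne_zero 2 hy1) this
  · have k5 : y1 ^ 2 * (Δ * y3 ^ 2 + u ^ 2 * yT ^ 2) = 0 := by
      linear_combination y3 ^ 2 * k1 - yT ^ 2 * (v * y3 - u * y1) * k4
    have k6 := (mul_eq_zero.1 k5).resolve_left (pow_ne_zero 2 hy1)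
    have k7 : Δ * (p * y3 ^ 2 + p2 * yT ^ 2) = 0 := by
      linear_combination p * k6 + yT ^ 2 * g1
    have k8 := (mul_eq_zero.1 k7).resolve_left hΔ'
    apply mul_ne_zero (pow_ne_zero 2 hD) n1
    rw [f1]
    linear_combination k8

end Pool.Agent.SIX
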