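import Pool.Agent.Helper97.SIX.Alg4

/-!
# SIX: the blocks `2, 2, 2`, end of the proof
-/

set_option autoImplicit false
set_option linter.unusedSectionVars false

namespace Pool.Agent.SIX

open Pool.Agent.SL Polynomial

variable {F : Type*} [Field F]

theorem col (P Q T a b : Fin 3 → F) (s t : F) (hQ : ∀ i, Q i = s * a i + t * b i) (hs : s ≠ 0) :
    br a Q T * br P Q b = br b Q T * br P Q a := by
  have h1 : s * br a Q T + t * br b Q T = 0 := by
    have : br Q Q T = s * br a Q T + t * br b Q T := by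
      unfold br
      linear_combination (Q 1 * T 2 - Q 2 * T 1) * hQ 0 - (Q 0 * T 2 - Q 2 * T 0) * hQ 1 + (Q 0 * T 1 - Q 1 * T 0) * hQ 2
    rw [← this]
    unfold br; ring
  have h2 : s * br P Q a + t * br P Q b = 0 := by
    have : br P Q Q = s * br P Q a + t * br P Q b := by
      unfold br
      linear_combination (P 0 * Q 1 - P 1 * Q 0) * hQ 2 - (P 0 * Q 2 - P 2 * Q 0) * hQ 1 + (P 1 * Q 2 - P 2 * Q 1) * hQ 0
    rw [← this]
    unfold br; ring
  have h3 : s * (br a Q T * br P Q b - br b Q T * br P Q a) = 0 := by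
    linear_combination br P Q b * h1 - br b Q T * h2
  exact sub_eq_zero.1 ((mul_eq_zero.1 h3).resolve_left hs)

theorem col' (P Q T a b : Fin 3 → F) (s t : F) (hP : ∀ i, P i = s * a i + t * b i) (hs : s ≠ 0) :
    br P a T * br P Q b = br P b T * br P Q a := by
  have h1 := col Q P T a b s t hP hs
  have e : ∀ n, br n P T = -br P n T := fun n => by unfold br; ring
  have e' : ∀ n, br Q P n = -br P Q n := fun n => by unfold br; ring
  rw [e, e, e', e'] at h1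
  linear_combination h1

theorem qf_at (g : Fin 6 → F) (P Q T n : Fin 3 → F) (κ l : F) (h1 : br n Q T = κ * br P Q n) (h2 : br P n T = l * br P Q n) :
    br P Q T ^ 2 * qf g n = br P Q n ^ 2 * (κ ^ 2 * qf g P + l ^ 2 * qf g Q + qf g T + κ * l * bf g P Q + l * bf g Q T +
      κ * bf g P T) := by
  have h3 : br P Q T ^ 2 * qf g n = qf g fun i => br P Q T * n i := by
    unfold qf; ring
  have h4 : (fun i => br P Q T * n i) = fun i => br n Q T * P i + br P n T * Q i + br P Q n * T i :=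
    funext fun i => br_smul P Q T n i
  rw [h3, h4, qf_comb, h1, h2]
  ring

theorem vec_at (P Q T n : Fin 3 → F) (κ l : F) (h1 : br n Q T = κ * br P Q n) (h2 : br P n T = l * br P Q n)
    (hn : br P Q n ≠ 0) (i : Fin 3) : br P Q T / br P Q n * n i = T i + κ * P i + l * Q i := by
  have h4 := br_smul P Q T n i
  rw [h1, h2] at h4
  field_simp
  linear_combination h4

theorem br_lin1 (P Q T a b : Fin 3 → F) (s t : F) (hT : ∀ i, T i = s * a i + t * b i) :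
    br T P Q = s * br a P Q + t * br b P Q := by
  simp only [br, hT]; ring

theorem br_lin2 (P Q T a b : Fin 3 → F) (s t : F) (hT : ∀ i, T i = s * a i + t * b i) :
    br P T Q = s * br P a Q + t * br P b Q := by
  simp only [br, hT]; ring

theorem br_lin3 (P Q T a b : Fin 3 → F) (s t : F) (hT : ∀ i, T i = s * a i + t * b i) :
    br P Q T = s * br P Q a + t * br P Q b := by
  simp only [br, hT]; ring

section br

variable (p : Fin 6 → Fin 3 → F)

theorem c1_eq (i : Fin 3) : c1 p i = br (p 4) (p 3) (p 5) * p 2 i + (-br (p 2) (p 3) (p 5)) * p 4 i := by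
  show br (p 4) (p 3) (p 5) * p 2 i - br (p 2) (p 3) (p 5) * p 4 i = _
  ring

theorem c1_eq' (i : Fin 3) : c1 p i = br (p 2) (p 4) (p 3) * p 5 i + (-br (p 2) (p 4) (p 5)) * p 3 i := by
  have : c1 p = fun i => br (p 2) (p 4) (p 3) * p 5 i - br (p 2) (p 4) (p 5) * p 3 i := vx_eq _ _ _ _
  rw [this]
  ring

theorem c3_eq (i : Fin 3) : c3 p i = br (p 2) (p 1) (p 3) * p 0 i + (-br (p 0) (p 1) (p 3)) * p 2 i := by
  show br (p 2) (p 1) (p 3) * p 0 i - br (p 0) (p 1) (p 3) * p 2 i = _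
  ring

theorem c3_eq' (i : Fin 3) : c3 p i = br (p 0) (p 2) (p 1) * p 3 i + (-br (p 0) (p 2) (p 3)) * p 1 i := by
  have : c3 p = fun i => br (p 0) (p 2) (p 1) * p 3 i - br (p 0) (p 2) (p 3) * p 1 i := vx_eq _ _ _ _
  rw [this]
  ring

theorem br_aux (P Q a b c d n : Fin 3 → F) (s t s' t' : F) (hP : ∀ i, P i = s * a i + t * b i)
    (hQ : ∀ i, Q i = s' * c i + t' * d i) : br P Q n = s * s' * br a c n + s * t' * br a d n + t * s' * br b c n +
      t * t' * br b d n := by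
  simp only [br, hP, hQ]
  ring

variable {p} (hG : GenPos p)
include hG

theorem br0 : br (c1 p) (c3 p) (p 0) ≠ 0 := by
  have h := br_aux (c1 p) (c3 p) _ _ _ _ (p 0) _ _ _ _ (c1_eq p) (c3_eq p)
  have e1 : br (p 2) (p 0) (p 0) = 0 := by unfold br; ring
  have e2 : br (p 2) (p 2) (p 0) = 0 := by unfold br; ring
  have e3 : br (p 4) (p 0) (p 0) = 0 := by unfold br; ring
  rw [h, e1, e2, e3]
  have : br (p 2) (p 3) (p 5) * br (p 0) (p 1) (p 3) * br (p 4) (p 2) (p 0) ≠ 0 :=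
    mul_ne_zero (mul_ne_zero (hG _ _ _ (by decide) (by decide) (by decide)) (hG _ _ _ (by decide) (by decide) (by decide)))
      (hG _ _ _ (by decide) (by decide) (by decide))
  intro h0
  apply this
  linear_combination h0

theorem br2 : br (c1 p) (c3 p) (p 2) ≠ 0 := by
  have h := br_aux (c1 p) (c3 p) _ _ _ _ (p 2) _ _ _ _ (c1_eq p) (c3_eq p)
  have e1 : br (p 2) (p 0) (p 2) = 0 := by unfold br; ring
  have e2 : br (p 2) (p 2) (p 2) = 0 := by unfold br; ring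
  have e3 : br (p 4) (p 2) (p 2) = 0 := by unfold br; ring
  rw [h, e1, e2, e3]
  have : br (p 2) (p 3) (p 5) * br (p 2) (p 1) (p 3) * br (p 4) (p 0) (p 2) ≠ 0 :=
    mul_ne_zero (mul_ne_zero (hG _ _ _ (by decide) (by decide) (by decide)) (hG _ _ _ (by decide) (by decide) (by decide)))
      (hG _ _ _ (by decide) (by decide) (by decide))
  intro h0
  apply this
  linear_combination -h0

theorem br4 : br (c1 p) (c3 p) (p 4) ≠ 0 := by
  have h := br_aux (c1 p) (c3 p) _ _ _ _ (p 4) _ _ _ _ (c1_eq p) (c3_eq p)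
  have e1 : br (p 2) (p 2) (p 4) = 0 := by unfold br; ring
  have e2 : br (p 4) (p 2) (p 4) = 0 := by unfold br; ring
  have e3 : br (p 4) (p 0) (p 4) = 0 := by unfold br; ring
  rw [h, e1, e2, e3]
  have : br (p 4) (p 3) (p 5) * br (p 2) (p 1) (p 3) * br (p 2) (p 0) (p 4) ≠ 0 :=
    mul_ne_zero (mul_ne_zero (hG _ _ _ (by decide) (by decide) (by decide)) (hG _ _ _ (by decide) (by decide) (by decide)))
      (hG _ _ _ (by decide) (by decide) (by decide))
  intro h0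
  apply this
  linear_combination h0

theorem br1 : br (c1 p) (c3 p) (p 1) ≠ 0 := by
  have h := br_aux (c1 p) (c3 p) _ _ _ _ (p 1) _ _ _ _ (c1_eq' p) (c3_eq' p)
  have e1 : br (p 5) (p 1) (p 1) = 0 := by unfold br; ring
  have e2 : br (p 3) (p 3) (p 1) = 0 := by unfold br; ring
  have e3 : br (p 3) (p 1) (p 1) = 0 := by unfold br; ring
  rw [h, e1, e2, e3]
  have : br (p 2) (p 4) (p 3) * br (p 0) (p 2) (p 1) * br (p 5) (p 3) (p 1) ≠ 0 :=
    mul_ne_zero (mul_ne_zero (hG _ _ _ (by decide) (by decide) (by decide)) (hG _ _ _ (by decide) (by decide) (by decide)))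
      (hG _ _ _ (by decide) (by decide) (by decide))
  intro h0
  apply this
  linear_combination h0

theorem br3 : br (c1 p) (c3 p) (p 3) ≠ 0 := by
  have h := br_aux (c1 p) (c3 p) _ _ _ _ (p 3) _ _ _ _ (c1_eq' p) (c3_eq' p)
  have e1 : br (p 5) (p 3) (p 3) = 0 := by unfold br; ring
  have e2 : br (p 3) (p 3) (p 3) = 0 := by unfold br; ring
  have e3 : br (p 3) (p 1) (p 3) = 0 := by unfold br; ring
  rw [h, e1, e2, e3]
  have : br (p 2) (p 4) (p 3) * br (p 0) (p 2) (p 3) * br (p 5) (p 1) (p 3) ≠ 0 :=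
    mul_ne_zero (mul_ne_zero (hG _ _ _ (by decide) (by decide) (by decide)) (hG _ _ _ (by decide) (by decide) (by decide)))
      (hG _ _ _ (by decide) (by decide) (by decide))
  intro h0
  apply this
  linear_combination -h0

theorem br5 : br (c1 p) (c3 p) (p 5) ≠ 0 := by
  have h := br_aux (c1 p) (c3 p) _ _ _ _ (p 5) _ _ _ _ (c1_eq' p) (c3_eq' p)
  have e1 : br (p 5) (p 3) (p 5) = 0 := by unfold br; ring
  have e2 : br (p 5) (p 1) (p 5) = 0 := by unfold br; ring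
  have e3 : br (p 3) (p 3) (p 5) = 0 := by unfold br; ring
  rw [h, e1, e2, e3]
  have : br (p 2) (p 4) (p 5) * br (p 0) (p 2) (p 3) * br (p 3) (p 1) (p 5) ≠ 0 :=
    mul_ne_zero (mul_ne_zero (hG _ _ _ (by decide) (by decide) (by decide)) (hG _ _ _ (by decide) (by decide) (by decide)))
      (hG _ _ _ (by decide) (by decide) (by decide))
  intro h0
  apply this
  linear_combination h0

omit hG in
theorem cT_br : br (c1 p) (c3 p) (cT p) = 2 * br (c1 p) (c3 p) (p 3) * br (c1 p) (c3 p) (p 2) := by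
  have h : ∀ i, cT p i = br (c1 p) (c3 p) (p 3) * p 2 i + br (c1 p) (c3 p) (p 2) * p 3 i := fun i => rfl
  rw [br_lin3 _ _ _ _ _ _ _ h]
  ring

theorem cT_ne [CharZero F] : br (c1 p) (c3 p) (cT p) ≠ 0 := by
  rw [cT_br]
  exact mul_ne_zero (mul_ne_zero two_ne_zero (br3 hG)) (br2 hG)

/-- the coordinates of the point `2` -/
theorem at2 : br (p 2) (c3 p) (cT p) = cκ p * br (c1 p) (c3 p) (p 2) ∧
    br (c1 p) (p 2) (cT p) = cl p * br (c1 p) (c3 p) (p 2) := by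
  constructor
  · rw [cκ, div_mul_cancel₀ _ (br2 hG)]
  · rw [cl, div_mul_cancel₀ _ (br2 hG)]

theorem at3 : br (p 3) (c3 p) (cT p) = -cκ p * br (c1 p) (c3 p) (p 3) ∧
    br (c1 p) (p 3) (cT p) = -cl p * br (c1 p) (c3 p) (p 3) := by
  obtain ⟨h1, h2⟩ := at2 hG
  have h : ∀ i, cT p i = br (c1 p) (c3 p) (p 3) * p 2 i + br (c1 p) (c3 p) (p 2) * p 3 i := fun i => rfl
  constructor
  · have h3 : br (cT p) (c3 p) (cT p) = br (c1 p) (c3 p) (p 3) * br (p 2) (c3 p) (cT p) +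
        br (c1 p) (c3 p) (p 2) * br (p 3) (c3 p) (cT p) := br_lin1 _ _ _ _ _ _ _ h
    have h4 : br (cT p) (c3 p) (cT p) = 0 := by unfold br; ring
    rw [h4, h1] at h3
    have h5 : br (c1 p) (c3 p) (p 2) * (br (p 3) (c3 p) (cT p) + cκ p * br (c1 p) (c3 p) (p 3)) = 0 := by
      linear_combination -h3
    have := (mul_eq_zero.1 h5).resolve_left (br2 hG)
    linear_combination this
  · have h3 : br (c1 p) (cT p) (cT p) = br (c1 p) (c3 p) (p 3) * br (c1 p) (p 2) (cT p) +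
        br (c1 p) (c3 p) (p 2) * br (c1 p) (p 3) (cT p) := br_lin2 _ _ _ _ _ _ _ h
    have h4 : br (c1 p) (cT p) (cT p) = 0 := by unfold br; ring
    rw [h4, h2] at h3
    have h5 : br (c1 p) (c3 p) (p 2) * (br (c1 p) (p 3) (cT p) + cl p * br (c1 p) (c3 p) (p 3)) = 0 := by
      linear_combination -h3
    have := (mul_eq_zero.1 h5).resolve_left (br2 hG)
    linear_combination this

theorem at0 : br (p 0) (c3 p) (cT p) = cκ p * br (c1 p) (c3 p) (p 0) ∧
    br (c1 p) (p 0) (cT p) = cμ p * br (c1 p) (c3 p) (p 0) := by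
  constructor
  · have h := col (c1 p) (c3 p) (cT p) (p 0) (p 2) _ _ (c3_eq p) (hG _ _ _ (by decide) (by decide) (by decide))
    rw [(at2 hG).1] at h
    have h5 : br (c1 p) (c3 p) (p 2) * (br (p 0) (c3 p) (cT p) - cκ p * br (c1 p) (c3 p) (p 0)) = 0 := by
      linear_combination h
    exact sub_eq_zero.1 ((mul_eq_zero.1 h5).resolve_left (br2 hG))
  · rw [cμ, div_mul_cancel₀ _ (br0 hG)]

theorem at1 : br (p 1) (c3 p) (cT p) = -cκ p * br (c1 p) (c3 p) (p 1) := by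
  have h := col (c1 p) (c3 p) (cT p) (p 3) (p 1) _ _ (c3_eq' p) (hG _ _ _ (by decide) (by decide) (by decide))
  rw [(at3 hG).1] at h
  have h5 : br (c1 p) (c3 p) (p 3) * (br (p 1) (c3 p) (cT p) - -cκ p * br (c1 p) (c3 p) (p 1)) = 0 := by
    linear_combination -h
  exact sub_eq_zero.1 ((mul_eq_zero.1 h5).resolve_left (br3 hG))

theorem at4 : br (c1 p) (p 4) (cT p) = cl p * br (c1 p) (c3 p) (p 4) := by
  have h := col' (c1 p) (c3 p) (cT p) (p 2) (p 4) _ _ (c1_eq p) (hG _ _ _ (by decide) (by decide) (by decide))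
  rw [(at2 hG).2] at h
  have h5 : br (c1 p) (c3 p) (p 2) * (br (c1 p) (p 4) (cT p) - cl p * br (c1 p) (c3 p) (p 4)) = 0 := by
    linear_combination -h
  exact sub_eq_zero.1 ((mul_eq_zero.1 h5).resolve_left (br2 hG))

theorem at5 : br (c1 p) (p 5) (cT p) = -cl p * br (c1 p) (c3 p) (p 5) := by
  have h := col' (c1 p) (c3 p) (cT p) (p 5) (p 3) _ _ (c1_eq' p) (hG _ _ _ (by decide) (by decide) (by decide))
  rw [(at3 hG).2] at h
  have h5 : br (c1 p) (c3 p) (p 3) * (br (c1 p) (p 5) (cT p) - -cl p * br (c1 p) (c3 p) (p 5)) = 0 := by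
    linear_combination h
  exact sub_eq_zero.1 ((mul_eq_zero.1 h5).resolve_left (br3 hG))

end br

variable [CharZero F]

/-- the point is on the conic -/
theorem on_conic (G1 G2 G3 : Fin 6 → F) (P Q T x y : Fin 3 → F) (hs : ∀ i, G1 i + G2 i + G3 i = pr x y i)
    (h1P : ∀ n, bf G1 P n = 0) (h3Q : ∀ n, bf G3 Q n = 0)
    (h2P : qf G2 P = 0) (h2Q : qf G2 Q = 0) (h1QT : bf G1 Q T = 0) (h3PT : bf G3 P T = 0) (hp : qf G1 Q ≠ 0)
    (hr : 4 * qf G3 P * qf G1 Q = bf G2 P Q ^ 2) (hu : bf G2 P T = 0) (hv : bf G2 Q T = 0) (κ l μ : F)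
    (k1 : qf G1 Q * l ^ 2 + qf G1 T = 0) (k2 : qf G3 P * κ ^ 2 + qf G3 T = 0)
    (k3 : bf G2 P Q * (κ * μ) + qf G2 T = 0) : qf (cM P Q T κ l μ) x = 0 := by
  have h1PP : qf G1 P = 0 := by
    have := h1P P
    rw [bf_self] at this
    exact (mul_eq_zero.1 this).resolve_left two_ne_zero
  have h3QQ : qf G3 Q = 0 := by
    have := h3Q Q
    rw [bf_self] at this
    exact (mul_eq_zero.1 this).resolve_left two_ne_zero
  have hq : ∀ n, qf G1 n + qf G2 n + qf G3 n = dot n x * dot n y := by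
    intro n
    rw [← qf_pr']
    have : qf (pr x y) n = qf (fun i => G1 i + G2 i + G3 i) n := by
      congr 1
      funext i
      exact (hs i).symm
    rw [this]
    unfold qf; ring
  have hb : ∀ m n, bf G1 m n + bf G2 m n + bf G3 m n = dot m x * dot n y + dot n x * dot m y := by
    intro m n
    rw [← bf_pr]
    have : bf (pr x y) m n = bf (fun i => G1 i + G2 i + G3 i) m n := by
      congr 1
      funext i
      exact (hs i).symm
    rw [this]
    unfold bf; ring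
  have h3PQ : bf G3 P Q = 0 := by rw [bf_comm', h3Q]
  have f1 := hq P
  have f2 := hq Q
  have f3 := hq T
  have f4 := hb P Q
  have f5 := hb P T
  have f6 := hb Q T
  rw [h1PP, h2P] at f1
  rw [h2Q, h3QQ] at f2
  rw [h1P, h3PQ] at f4
  rw [h1P, hu, h3PT] at f5
  rw [h1QT, hv, h3Q] at f6
  rw [qf_cM]
  set X1 := dot P x
  set X3 := dot Q x
  set XT := dot T x
  set Y1 := dot P y
  set Y3 := dot Q y
  set YT := dot T y
  have e2 : qf G1 Q = X3 * Y3 := by linear_combination f2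
  have hX3 : X3 ≠ 0 := by
    intro h
    rw [h, zero_mul] at e2
    exact hp e2
  have hY3 : Y3 ≠ 0 := by
    intro h
    rw [h, mul_zero] at e2
    exact hp e2
  have e1 : qf G3 P = X1 * Y1 := by linear_combination f1
  have e4 : bf G2 P Q = X1 * Y3 + X3 * Y1 := by linear_combination f4
  have e7 : X1 * Y3 = X3 * Y1 := by
    rw [e1, e2, e4] at hr
    have : (X1 * Y3 - X3 * Y1) ^ 2 = 0 := by linear_combination -hr
    exact sub_eq_zero.1 (pow_eq_zero_iff two_ne_zero |>.1 this)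
  have e8 : X3 * YT = -(XT * Y3) := by linear_combination -f6
  have e9 : XT * YT = qf G1 T + qf G2 T + qf G3 T := by linear_combination -f3
  rw [e2] at k1
  rw [e1] at k2
  rw [e4] at k3
  have key : Y3 * (XT ^ 2 - l ^ 2 * X3 ^ 2 - 2 * κ * μ * (X1 * X3) - κ ^ 2 * X1 ^ 2) = 0 := by
    linear_combination XT * e8 - X3 * e9 - X3 * k1 - X3 * k2 - X3 * k3 - (κ ^ 2 * X1 + κ * μ * X3) * e7
  exact (mul_eq_zero.1 key).resolve_left hY3

/-- the configuration with the blocks `{0, 1}`, `{2, 3}`, `{4, 5}` -/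
structure Cfg (p : Fin 6 → Fin 3 → F) (G1 G2 G3 : Fin 6 → F) (a b : ℕ) (x y : Fin 3 → F) : Prop where
  gp : GenPos p
  ha : 0 < a
  hab : a < b
  dt1 : dt (pen3 G1 G2 G3 a b) = 0
  dt2 : dt (pen3 G3 G2 G1 (b - a) b) = 0
  z1 : ∀ i : Fin 6, 2 ≤ i.val → qf G1 (p i) = 0
  n1 : ∀ i : Fin 6, i.val < 2 → qf G1 (p i) ≠ 0
  z2 : ∀ i : Fin 6, (i.val < 2 ∨ 4 ≤ i.val) → qf G2 (p i) = 0
  n2 : ∀ i : Fin 6, 2 ≤ i.val → i.val < 4 → qf G2 (p i) ≠ 0
  z3 : ∀ i : Fin 6, i.val < 4 → qf G3 (p i) = 0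
  n3 : ∀ i : Fin 6, 4 ≤ i.val → qf G3 (p i) ≠ 0
  hs : ∀ i, G1 i + G2 i + G3 i = pr x y i
  hx : x ≠ 0
  hy : y ≠ 0

/-- the conic of a configuration -/
def cC (p : Fin 6 → Fin 3 → F) : Fin 6 → F := cM (c1 p) (c3 p) (cT p) (cκ p) (cl p) (cμ p)

theorem Cfg.conic {p : Fin 6 → Fin 3 → F} {G1 G2 G3 : Fin 6 → F} {a b : ℕ} {x y : Fin 3 → F}
    (h : Cfg p G1 G2 G3 a b x y) (b24 : bf G1 (p 2) (p 4) = 0) (b35 : bf G1 (p 3) (p 5) = 0)
    (b02 : bf G3 (p 0) (p 2) = 0) (b13 : bf G3 (p 1) (p 3) = 0) :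
    dt (cC p) ≠ 0 ∧ Tan (cC p) (p 0) (p 2) ∧ Tan (cC p) (p 1) (p 3) ∧ Tan (cC p) (p 4) (p 2) ∧
      Tan (cC p) (p 5) (p 3) ∧ qf (cC p) x = 0 ∧ qf (cC p) y = 0 := by
  obtain ⟨hG, ha, hab, dt1, dt2, z1, n1, z2, n2, z3, n3, hs, hx, hy⟩ := h
  have B : ∀ i j l : Fin 6, i ≠ j → i ≠ l → j ≠ l → br (p i) (p j) (p l) ≠ 0 := hG
  have h1P : ∀ n, bf G1 (c1 p) n = 0 :=
    vertex G1 _ _ _ _ (B 2 4 3 (by decide) (by decide) (by decide)) (z1 2 (by decide)) (z1 4 (by decide)) (z1 3 (by decide))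
      b24 b35
  have h3Q : ∀ n, bf G3 (c3 p) n = 0 :=
    vertex G3 _ _ _ _ (B 0 2 1 (by decide) (by decide) (by decide)) (z3 0 (by decide)) (z3 2 (by decide)) (z3 1 (by decide))
      b02 b13
  have ε1 : bf G1 (p 2) (p 3) ≠ 0 := cross_ne G1 (p 2) (p 4) (p 3) (p 5) (B 2 4 3 (by decide) (by decide) (by decide))
    (B 2 4 5 (by decide) (by decide) (by decide)) (B 2 3 5 (by decide) (by decide) (by decide)) (z1 2 (by decide))
    (z1 4 (by decide)) (z1 3 (by decide)) (z1 5 (by decide)) b24 ⟨_, n1 0 (by decide)⟩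
  have ε3 : bf G3 (p 2) (p 3) ≠ 0 := by
    refine cross_ne G3 (p 2) (p 0) (p 3) (p 1) (B 2 0 3 (by decide) (by decide) (by decide))
      (B 2 0 1 (by decide) (by decide) (by decide)) (B 2 3 1 (by decide) (by decide) (by decide)) (z3 2 (by decide))
      (z3 0 (by decide)) (z3 3 (by decide)) (z3 1 (by decide)) ?_ ⟨_, n3 4 (by decide)⟩
    rw [bf_comm', b02]
  have h2P : qf G2 (c1 p) = 0 := next3 G1 G2 G3 ha hab dt1 _ _ _ h1P (z1 2 (by decide)) (z1 3 (by decide)) ε1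
  have h2Q : qf G2 (c3 p) = 0 := next3 G3 G2 G1 (by omega) (by omega) dt2 _ _ _ h3Q (z3 2 (by decide)) (z3 3 (by decide)) ε3
  have hPuv : br (c1 p) (p 2) (p 3) ≠ 0 := by
    have : br (c1 p) (p 2) (p 3) = br (p 4) (p 3) (p 5) * br (p 2) (p 2) (p 3) +
      (-br (p 2) (p 3) (p 5)) * br (p 4) (p 2) (p 3) := br_lin1 _ _ _ _ _ _ _ (c1_eq p)
    rw [this]
    have e : br (p 2) (p 2) (p 3) = 0 := by unfold br; ring
    rw [e, mul_zero, zero_add]
    exact mul_ne_zero (neg_ne_zero.2 (B 2 3 5 (by decide) (by decide) (by decide))) (B 4 2 3 (by decide) (by decide) (by decide))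
  have hQuv : br (c3 p) (p 2) (p 3) ≠ 0 := by
    have : br (c3 p) (p 2) (p 3) = br (p 2) (p 1) (p 3) * br (p 0) (p 2) (p 3) +
      (-br (p 0) (p 1) (p 3)) * br (p 2) (p 2) (p 3) := br_lin1 _ _ _ _ _ _ _ (c3_eq p)
    rw [this]
    have e : br (p 2) (p 2) (p 3) = 0 := by unfold br; ring
    rw [e, mul_zero, add_zero]
    exact mul_ne_zero (B 2 1 3 (by decide) (by decide) (by decide)) (B 0 2 3 (by decide) (by decide) (by decide))
  have hbT : ∀ (g : Fin 6 → F) (n : Fin 3 → F), bf g n (cT p) =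
      br (c1 p) (c3 p) (p 3) * bf g n (p 2) + br (c1 p) (c3 p) (p 2) * bf g n (p 3) := by
    intro g n
    show bf g n (fun j => br (c1 p) (c3 p) (p 3) * p 2 j + br (c1 p) (c3 p) (p 2) * p 3 j) = _
    generalize br (c1 p) (c3 p) (p 3) = s
    generalize br (c1 p) (c3 p) (p 2) = t
    unfold bf; ring
  have h1QT : bf G1 (c3 p) (cT p) = 0 := by
    rw [hbT]
    exact harm G1 (c1 p) (c3 p) (p 2) (p 3) hPuv h1P (z1 2 (by decide)) (z1 3 (by decide))
  have h3PT : bf G3 (c1 p) (cT p) = 0 := by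
    rw [hbT]
    have h := harm G3 (c3 p) (c1 p) (p 2) (p 3) hQuv h3Q (z3 2 (by decide)) (z3 3 (by decide))
    have e : ∀ n, br (c3 p) (c1 p) n = -br (c1 p) (c3 p) n := fun n => by unfold br; ring
    rw [e, e] at h
    linear_combination -h
  have hα := br2 hG
  have hα' := br3 hG
  have hD := cT_ne hG
  have hqT : ∀ (g : Fin 6 → F), qf g (p 2) = 0 → qf g (p 3) = 0 → qf g (cT p) =
      br (c1 p) (c3 p) (p 3) * br (c1 p) (c3 p) (p 2) * bf g (p 2) (p 3) := by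
    intro g g2 g3
    have : qf g (cT p) = br (c1 p) (c3 p) (p 3) ^ 2 * qf g (p 2) + br (c1 p) (c3 p) (p 2) ^ 2 * qf g (p 3) +
        br (c1 p) (c3 p) (p 3) * br (c1 p) (c3 p) (p 2) * bf g (p 2) (p 3) := by
      show qf g (fun j => br (c1 p) (c3 p) (p 3) * p 2 j + br (c1 p) (c3 p) (p 2) * p 3 j) = _
      generalize br (c1 p) (c3 p) (p 3) = s
      generalize br (c1 p) (c3 p) (p 2) = t
      unfold bf qf; ring
    rw [this, g2, g3]; ring
  have hp2 : qf G1 (cT p) ≠ 0 := by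
    rw [hqT G1 (z1 2 (by decide)) (z1 3 (by decide))]
    exact mul_ne_zero (mul_ne_zero hα' hα) ε1
  have hq2 : qf G3 (cT p) ≠ 0 := by
    rw [hqT G3 (z3 2 (by decide)) (z3 3 (by decide))]
    exact mul_ne_zero (mul_ne_zero hα' hα) ε3
  have hp : qf G1 (c3 p) ≠ 0 := by
    intro h0
    have h := qf_harm G1 (c1 p) (p 2) (p 3) (c3 p) h1P (z1 2 (by decide)) (z1 3 (by decide))
    rw [h0, mul_zero] at h
    exact mul_ne_zero (neg_ne_zero.2 (mul_ne_zero hα hα')) ε1 h.symm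
  have hq : qf G3 (c1 p) ≠ 0 := by
    intro h0
    have h := qf_harm G3 (c3 p) (p 2) (p 3) (c1 p) h3Q (z3 2 (by decide)) (z3 3 (by decide))
    have e : ∀ n, br (c3 p) (c1 p) n = -br (c1 p) (c3 p) n := fun n => by unfold br; ring
    rw [h0, mul_zero, e, e] at h
    exact mul_ne_zero (neg_ne_zero.2 (mul_ne_zero (neg_ne_zero.2 hα) (neg_ne_zero.2 hα'))) ε3 h.symm
  obtain ⟨e1, e2, e3⟩ := rel_exp G1 G2 G3 ha hab dt1 _ _ _ h1P h3Q h2P h2Q h1QT h3PT hp hp2 hq hq2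
  have hr := disc_zero G1 G2 G3 _ _ _ (p 0) h1P h3Q h2P h2Q h1QT h3PT hp hq hq2 e1 e2 e3 hD (br0 hG) (n1 0 (by decide))
    (z2 0 (by decide)) (z3 0 (by decide))
  have hu : bf G2 (c1 p) (cT p) = 0 := by
    have : qf G1 (c3 p) * bf G2 (c1 p) (cT p) ^ 2 = 0 := by linear_combination -e1 + qf G1 (cT p) * hr
    exact pow_eq_zero_iff two_ne_zero |>.1 ((mul_eq_zero.1 this).resolve_left hp)
  have hv : bf G2 (c3 p) (cT p) = 0 := by
    have : qf G3 (c1 p) * bf G2 (c3 p) (cT p) ^ 2 = 0 := by linear_combination -e3 + qf G3 (cT p) * hr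
    exact pow_eq_zero_iff two_ne_zero |>.1 ((mul_eq_zero.1 this).resolve_left hq)
  have hrne : bf G2 (c1 p) (c3 p) ≠ 0 := by
    intro h0
    rw [h0] at hr
    have : 4 * qf G3 (c1 p) * qf G1 (c3 p) = 0 := by rw [hr]; ring
    exact mul_ne_zero (mul_ne_zero (by norm_num) hq) hp this
  have h1PP : qf G1 (c1 p) = 0 := by
    have := h1P (c1 p)
    rw [bf_self] at this
    exact (mul_eq_zero.1 this).resolve_left two_ne_zero
  have h3QQ : qf G3 (c3 p) = 0 := by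
    have := h3Q (c3 p)
    rw [bf_self] at this
    exact (mul_eq_zero.1 this).resolve_left two_ne_zero
  have h3PQ : bf G3 (c1 p) (c3 p) = 0 := by rw [bf_comm', h3Q]
  -- values of the three forms at a point
  have v1 : ∀ n κ l, br n (c3 p) (cT p) = κ * br (c1 p) (c3 p) n → br (c1 p) n (cT p) = l * br (c1 p) (c3 p) n →
      br (c1 p) (c3 p) (cT p) ^ 2 * qf G1 n = br (c1 p) (c3 p) n ^ 2 * (qf G1 (c3 p) * l ^ 2 + qf G1 (cT p)) := by
    intro n κ l h1 h2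
    rw [qf_at G1 _ _ _ n κ l h1 h2, h1PP, h1P, h1P, h1QT]; ring
  have v2 : ∀ n κ l, br n (c3 p) (cT p) = κ * br (c1 p) (c3 p) n → br (c1 p) n (cT p) = l * br (c1 p) (c3 p) n →
      br (c1 p) (c3 p) (cT p) ^ 2 * qf G2 n =
        br (c1 p) (c3 p) n ^ 2 * (bf G2 (c1 p) (c3 p) * (κ * l) + qf G2 (cT p)) := by
    intro n κ l h1 h2
    rw [qf_at G2 _ _ _ n κ l h1 h2, h2P, h2Q, hu, hv]; ring
  have v3 : ∀ n κ l, br n (c3 p) (cT p) = κ * br (c1 p) (c3 p) n → br (c1 p) n (cT p) = l * br (c1 p) (c3 p) n →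
      br (c1 p) (c3 p) (cT p) ^ 2 * qf G3 n = br (c1 p) (c3 p) n ^ 2 * (qf G3 (c1 p) * κ ^ 2 + qf G3 (cT p)) := by
    intro n κ l h1 h2
    rw [qf_at G3 _ _ _ n κ l h1 h2, h3QQ, h3PQ, h3Q, h3PT]; ring
  have zer : ∀ (g : Fin 6 → F) n A, br (c1 p) (c3 p) n ≠ 0 → br (c1 p) (c3 p) (cT p) ^ 2 * qf g n =
      br (c1 p) (c3 p) n ^ 2 * A → qf g n = 0 → A = 0 := by
    intro g n A hn h h0
    rw [h0, mul_zero] at h
    exact (mul_eq_zero.1 h.symm).resolve_left (pow_ne_zero 2 hn)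
  have nzer : ∀ (g : Fin 6 → F) n A, br (c1 p) (c3 p) (cT p) ^ 2 * qf g n =
      br (c1 p) (c3 p) n ^ 2 * A → qf g n ≠ 0 → A ≠ 0 := by
    intro g n A h h0 h1
    rw [h1, mul_zero] at h
    exact mul_ne_zero (pow_ne_zero 2 hD) h0 h
  obtain ⟨a2, a2'⟩ := at2 hG
  obtain ⟨a3, a3'⟩ := at3 hG
  obtain ⟨a0, a0'⟩ := at0 hG
  have a1 := at1 hG
  have a4 := at4 hG
  have a5 := at5 hG
  have k1 := zer G1 (p 2) _ hα (v1 _ _ _ a2 a2') (z1 2 (by decide))
  have k2 := zer G3 (p 2) _ hα (v3 _ _ _ a2 a2') (z3 2 (by decide))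
  have k3 := zer G2 (p 0) _ (br0 hG) (v2 _ _ _ a0 a0') (z2 0 (by decide))
  have hκ : cκ p ≠ 0 := by
    intro h0
    rw [h0] at k2
    exact hq2 (by linear_combination k2)
  have hl : cl p ≠ 0 := by
    intro h0
    rw [h0] at k1
    exact hp2 (by linear_combination k1)
  -- the other coordinates
  obtain ⟨m1, hm1⟩ : ∃ m, br (c1 p) (p 1) (cT p) = m * br (c1 p) (c3 p) (p 1) := ⟨_, (div_mul_cancel₀ _ (br1 hG)).symm⟩
  obtain ⟨ν, hν⟩ : ∃ m, br (p 4) (c3 p) (cT p) = m * br (c1 p) (c3 p) (p 4) := ⟨_, (div_mul_cancel₀ _ (br4 hG)).symm⟩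
  obtain ⟨ν5, hν5⟩ : ∃ m, br (p 5) (c3 p) (cT p) = m * br (c1 p) (c3 p) (p 5) := ⟨_, (div_mul_cancel₀ _ (br5 hG)).symm⟩
  have k4 := zer G2 (p 1) _ (br1 hG) (v2 _ _ _ a1 hm1) (z2 1 (by decide))
  have k5 := zer G2 (p 4) _ (br4 hG) (v2 _ _ _ hν a4) (z2 4 (by decide))
  have k6 := zer G2 (p 5) _ (br5 hG) (v2 _ _ _ hν5 a5) (z2 5 (by decide))
  have hm1' : m1 = -cμ p := by
    have : bf G2 (c1 p) (c3 p) * cκ p * (m1 + cμ p) = 0 := by linear_combination k3 - k4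
    have := (mul_eq_zero.1 this).resolve_left (mul_ne_zero hrne hκ)
    linear_combination this
  have hνl : ν * cl p = cκ p * cμ p := by
    have : bf G2 (c1 p) (c3 p) * (ν * cl p - cκ p * cμ p) = 0 := by linear_combination k5 - k3
    exact sub_eq_zero.1 ((mul_eq_zero.1 this).resolve_left hrne)
  have hν5' : ν5 = -ν := by
    have : bf G2 (c1 p) (c3 p) * cl p * (ν5 + ν) = 0 := by linear_combination k5 - k6
    have := (mul_eq_zero.1 this).resolve_left (mul_ne_zero hrne hl)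
    linear_combination this
  subst hm1'
  subst hν5'
  have hμl : cμ p ^ 2 ≠ cl p ^ 2 := by
    intro h0
    refine nzer G1 (p 0) _ (v1 _ _ _ a0 a0') (n1 0 (by decide)) ?_
    rw [h0]
    exact k1
  have hνκ : ν ^ 2 ≠ cκ p ^ 2 := by
    intro h0
    refine nzer G3 (p 4) _ (v3 _ _ _ hν a4) (n3 4 (by decide)) ?_
    rw [h0]
    exact k2
  refine ⟨?_, ?_, ?_, ?_, ?_, ?_, ?_⟩
  · unfold cC
    rw [dt_cM]
    refine mul_ne_zero (mul_ne_zero (mul_ne_zero (by norm_num) (pow_ne_zero 2 hκ)) ?_) (pow_ne_zero 2 hD)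
    exact fun h0 => hμl (by linear_combination -h0)
  · refine tan_gen (c1 p) (c3 p) (cT p) _ _ (cκ p) (cl p) (cμ p) _ _ (vec_at _ _ _ _ _ _ a0 a0' (br0 hG))
      (vec_at _ _ _ _ _ _ a2 a2' (br2 hG)) (fun h0 => hμl (by rw [h0])) _ fun n z => bf_cM _ _ _ _ _ _ n z
  · refine tan_gen (c1 p) (c3 p) (cT p) _ _ (-cκ p) (-cl p) (-cμ p) _ _ (vec_at _ _ _ _ _ _ a1 hm1 (br1 hG))
      (vec_at _ _ _ _ _ _ a3 a3' (br3 hG)) (fun h0 => hμl (by rw [neg_inj.1 h0])) _ fun n z => ?_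
    unfold cC
    rw [bf_cM]; ring
  · refine tan_gen (c3 p) (c1 p) (cT p) _ _ (cl p) (cκ p) ν (br (c1 p) (c3 p) (cT p) / br (c1 p) (c3 p) (p 4))
      (br (c1 p) (c3 p) (cT p) / br (c1 p) (c3 p) (p 2)) (fun i => ?_) (fun i => ?_) (fun h0 => hνκ (by rw [h0])) _
      fun n z => ?_
    · rw [vec_at _ _ _ _ _ _ hν a4 (br4 hG)]; ring
    · rw [vec_at _ _ _ _ _ _ a2 a2' (br2 hG)]; ring
    · unfold cC
      rw [bf_cM]
      linear_combination (2 * (dot (c1 p) n * dot (c3 p) z + dot (c3 p) n * dot (c1 p) z)) * hνl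
  · refine tan_gen (c3 p) (c1 p) (cT p) _ _ (-cl p) (-cκ p) (-ν) (br (c1 p) (c3 p) (cT p) / br (c1 p) (c3 p) (p 5))
      (br (c1 p) (c3 p) (cT p) / br (c1 p) (c3 p) (p 3)) (fun i => ?_) (fun i => ?_)
      (fun h0 => hνκ (by rw [neg_inj.1 h0])) _ fun n z => ?_
    · rw [vec_at _ _ _ _ _ _ hν5 a5 (br5 hG)]; ring
    · rw [vec_at _ _ _ _ _ _ a3 a3' (br3 hG)]; ring
    · unfold cC
      rw [bf_cM]
      linear_combination (2 * (dot (c1 p) n * dot (c3 p) z + dot (c3 p) n * dot (c1 p) z)) * hνl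
  · exact on_conic G1 G2 G3 _ _ _ x y hs h1P h3Q h2P h2Q h1QT h3PT hp hr hu hv _ _ _ k1 k2 k3
  · refine on_conic G1 G2 G3 _ _ _ y x (fun i => ?_) h1P h3Q h2P h2Q h1QT h3PT hp hr hu hv _ _ _ k1 k2 k3
    rw [hs]
    fin_cases i <;> simp [pr] <;> ring

end Pool.Agent.SIX
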