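import Pool.Agent.Helper97.SIX.Alg5

/-!
# SIX: all cases
-/

set_option autoImplicit false
set_option linter.unusedSectionVars false

namespace Pool.Agent.SIX

open Pool.Agent.SL Polynomial

variable {F : Type*} [Field F]

/-- both points are on one of the lines through two double points -/
def OutL (p : Fin 6 → Fin 3 → F) (x y : Fin 3 → F) : Prop :=
  ∃ i j m n : Fin 6, [i, j, m, n].Nodup ∧ dot (vx (p i) (p j) (p m) (p n)) x = 0 ∧
    dot (vx (p i) (p j) (p m) (p n)) y = 0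

/-- both points are on one of the exceptional conics -/
def OutC (p : Fin 6 → Fin 3 → F) (x y : Fin 3 → F) : Prop :=
  ∃ t : Equiv.Perm (Fin 6), dt (cC (p ∘ t)) ≠ 0 ∧ Tan (cC (p ∘ t)) (p (t 0)) (p (t 2)) ∧
    Tan (cC (p ∘ t)) (p (t 1)) (p (t 3)) ∧ Tan (cC (p ∘ t)) (p (t 4)) (p (t 2)) ∧
    Tan (cC (p ∘ t)) (p (t 5)) (p (t 3)) ∧ qf (cC (p ∘ t)) x = 0 ∧ qf (cC (p ∘ t)) y = 0

/-- the conclusion -/
def Out (p : Fin 6 → Fin 3 → F) (x y : Fin 3 → F) : Prop := OutL p x y ∨ OutC p x y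

theorem OutL.perm {p : Fin 6 → Fin 3 → F} {x y : Fin 3 → F} (σ : Equiv.Perm (Fin 6)) (h : OutL (p ∘ σ) x y) :
    OutL p x y := by
  obtain ⟨i, j, m, n, hn, h1, h2⟩ := h
  refine ⟨σ i, σ j, σ m, σ n, ?_, h1, h2⟩
  have := List.Nodup.map σ.injective hn
  simpa using this

theorem Out.perm {p : Fin 6 → Fin 3 → F} {x y : Fin 3 → F} (σ : Equiv.Perm (Fin 6)) (h : Out (p ∘ σ) x y) :
    Out p x y := by
  rcases h with h | ⟨t, h⟩
  · exact Or.inl (h.perm σ)
  · exact Or.inr ⟨t.trans σ, h⟩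

theorem GenPos.perm {p : Fin 6 → Fin 3 → F} (h : GenPos p) (σ : Equiv.Perm (Fin 6)) : GenPos (p ∘ σ) :=
  fun _ _ _ h1 h2 h3 => h _ _ _ (σ.injective.ne h1) (σ.injective.ne h2) (σ.injective.ne h3)

variable [CharZero F]

theorem Cfg.reindex {p : Fin 6 → Fin 3 → F} {G1 G2 G3 : Fin 6 → F} {a b : ℕ} {x y : Fin 3 → F}
    (h : Cfg p G1 G2 G3 a b x y) (t : Equiv.Perm (Fin 6)) (ht : ∀ i, (t i).val / 2 = i.val / 2) :
    Cfg (p ∘ t) G1 G2 G3 a b x y where
  gp := h.gp.perm t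
  ha := h.ha
  hab := h.hab
  dt1 := h.dt1
  dt2 := h.dt2
  z1 := fun i hi => h.z1 _ (by have := ht i; omega)
  n1 := fun i hi => h.n1 _ (by have := ht i; omega)
  z2 := fun i hi => h.z2 _ (by have := ht i; omega)
  n2 := fun i hi hi' => h.n2 _ (by have := ht i; omega) (by have := ht i; omega)
  z3 := fun i hi => h.z3 _ (by have := ht i; omega)
  n3 := fun i hi => h.n3 _ (by have := ht i; omega)
  hs := h.hs
  hx := h.hx
  hy := h.hy

theorem sum_line {G1 G2 G3 : Fin 6 → F} {x y : Fin 3 → F} (hs : ∀ i, G1 i + G2 i + G3 i = pr x y i) (hx : x ≠ 0)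
    (hy : y ≠ 0) {P : Fin 3 → F} (h : ∀ n, bf G1 P n = 0 ∧ bf G2 P n = 0 ∧ bf G3 P n = 0) : dot P x = 0 ∧ dot P y = 0 := by
  refine on_line x y hx hy P fun n => ?_
  have : bf (pr x y) P n = bf G1 P n + bf G2 P n + bf G3 P n := by
    have e : pr x y = fun i => G1 i + G2 i + G3 i := funext fun i => (hs i).symm
    rw [e]
    unfold bf; ring
  rw [this, (h n).1, (h n).2.1, (h n).2.2]
  ring

theorem Cfg.out {p : Fin 6 → Fin 3 → F} {G1 G2 G3 : Fin 6 → F} {a b : ℕ} {x y : Fin 3 → F}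
    (h : Cfg p G1 G2 G3 a b x y) : Out p x y := by
  have hC := h
  obtain ⟨hG, ha, hab, dt1, dt2, z1, n1, z2, n2, z3, n3, hs, hx, hy⟩ := h
  have B : ∀ i j l : Fin 6, i ≠ j → i ≠ l → j ≠ l → br (p i) (p j) (p l) ≠ 0 := hG
  have hdt1 : dt G1 = 0 := by
    have h1 := congrArg (fun q => Polynomial.eval 0 q) dt1
    have h2 : eval 0 (dt (pen3 G1 G2 G3 a b)) = dt G1 := by
      simp only [dt, pen3, eval_add, eval_sub, eval_mul, eval_pow, eval_C, eval_X, eval_ofNat,
        zero_pow ha.ne', zero_pow (ha.trans hab).ne', mul_zero, add_zero]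
    rw [← h2]
    simpa using h1
  have hdt3 : dt G3 = 0 := by
    have h1 := congrArg (fun q => Polynomial.eval 0 q) dt2
    have h2 : eval 0 (dt (pen3 G3 G2 G1 (b - a) b)) = dt G3 := by
      simp only [dt, pen3, eval_add, eval_sub, eval_mul, eval_pow, eval_C, eval_X, eval_ofNat,
        zero_pow (show b - a ≠ 0 by omega), zero_pow (ha.trans hab).ne', mul_zero, add_zero]
    rw [← h2]
    simpa using h1
  have f1 := four G1 (p 2) (p 3) (p 4) (p 5) (B _ _ _ (by decide) (by decide) (by decide))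
    (B _ _ _ (by decide) (by decide) (by decide)) (B _ _ _ (by decide) (by decide) (by decide))
    (B _ _ _ (by decide) (by decide) (by decide)) (z1 _ (by decide)) (z1 _ (by decide)) (z1 _ (by decide))
    (z1 _ (by decide)) hdt1
  have f3 := four G3 (p 0) (p 1) (p 2) (p 3) (B _ _ _ (by decide) (by decide) (by decide))
    (B _ _ _ (by decide) (by decide) (by decide)) (B _ _ _ (by decide) (by decide) (by decide))
    (B _ _ _ (by decide) (by decide) (by decide)) (z3 _ (by decide)) (z3 _ (by decide)) (z3 _ (by decide))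
    (z3 _ (by decide)) hdt3
  rcases f1 with ⟨f1, f1'⟩ | f1
  · left
    refine ⟨2, 3, 4, 5, by decide, ?_⟩
    exact sum_line hs hx hy fun n => caseA G1 G2 G3 ha hab dt1 (p 2) (p 3) (p 4) (p 5)
      (B _ _ _ (by decide) (by decide) (by decide))
      (B _ _ _ (by decide) (by decide) (by decide)) (B _ _ _ (by decide) (by decide) (by decide))
      (B _ _ _ (by decide) (by decide) (by decide)) (z1 _ (by decide)) (z1 _ (by decide)) (z1 _ (by decide))
      (z1 _ (by decide)) ⟨_, n1 0 (by decide)⟩ f1 f1' (n2 _ (by decide) (by decide)) (z2 _ (by decide)) (z2 _ (by decide))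
      (z3 _ (by decide)) (z3 _ (by decide)) (n3 _ (by decide)) n
  rcases f3 with ⟨f3, f3'⟩ | f3
  · left
    refine ⟨2, 3, 0, 1, by decide, ?_⟩
    have h := fun n => caseA G3 G2 G1 (show 0 < b - a by omega) (show b - a < b by omega) dt2 (p 2) (p 3) (p 0) (p 1)
      (B _ _ _ (by decide) (by decide) (by decide))
      (B _ _ _ (by decide) (by decide) (by decide)) (B _ _ _ (by decide) (by decide) (by decide))
      (B _ _ _ (by decide) (by decide) (by decide)) (z3 _ (by decide)) (z3 _ (by decide)) (z3 _ (by decide))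
      (z3 _ (by decide)) ⟨_, n3 4 (by decide)⟩ f3' f3 (n2 _ (by decide) (by decide)) (z2 _ (by decide)) (z2 _ (by decide))
      (z1 _ (by decide)) (z1 _ (by decide)) (n1 _ (by decide)) n
    exact sum_line hs hx hy fun n => ⟨(h n).2.2, (h n).2.1, (h n).1⟩
  right
  obtain ⟨t, ht, t24, t35, t02, t13⟩ : ∃ t : Equiv.Perm (Fin 6), (∀ i, (t i).val / 2 = i.val / 2) ∧
      bf G1 (p (t 2)) (p (t 4)) = 0 ∧ bf G1 (p (t 3)) (p (t 5)) = 0 ∧ bf G3 (p (t 0)) (p (t 2)) = 0 ∧
      bf G3 (p (t 1)) (p (t 3)) = 0 := by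
    rcases f1 with ⟨f1, f1'⟩ | ⟨f1, f1'⟩ <;> rcases f3 with ⟨f3, f3'⟩ | ⟨f3, f3'⟩
    · exact ⟨1, by decide, f1, f1', f3, f3'⟩
    · refine ⟨Equiv.swap 0 1, by decide, ?_, ?_, ?_, ?_⟩
      · rw [show Equiv.swap (0 : Fin 6) 1 2 = 2 by decide, show Equiv.swap (0 : Fin 6) 1 4 = 4 by decide]; exact f1
      · rw [show Equiv.swap (0 : Fin 6) 1 3 = 3 by decide, show Equiv.swap (0 : Fin 6) 1 5 = 5 by decide]; exact f1'
      · rw [show Equiv.swap (0 : Fin 6) 1 0 = 1 by decide, show Equiv.swap (0 : Fin 6) 1 2 = 2 by decide]; exact f3'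
      · rw [show Equiv.swap (0 : Fin 6) 1 1 = 0 by decide, show Equiv.swap (0 : Fin 6) 1 3 = 3 by decide]; exact f3
    · refine ⟨Equiv.swap 4 5, by decide, ?_, ?_, ?_, ?_⟩
      · rw [show Equiv.swap (4 : Fin 6) 5 2 = 2 by decide, show Equiv.swap (4 : Fin 6) 5 4 = 5 by decide]; exact f1
      · rw [show Equiv.swap (4 : Fin 6) 5 3 = 3 by decide, show Equiv.swap (4 : Fin 6) 5 5 = 4 by decide]; exact f1'
      · rw [show Equiv.swap (4 : Fin 6) 5 0 = 0 by decide, show Equiv.swap (4 : Fin 6) 5 2 = 2 by decide]; exact f3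
      · rw [show Equiv.swap (4 : Fin 6) 5 1 = 1 by decide, show Equiv.swap (4 : Fin 6) 5 3 = 3 by decide]; exact f3'
    · refine ⟨(Equiv.swap 0 1).trans (Equiv.swap 4 5), by decide, ?_, ?_, ?_, ?_⟩
      · rw [show (Equiv.swap (0 : Fin 6) 1).trans (Equiv.swap 4 5) 2 = 2 by decide,
          show (Equiv.swap (0 : Fin 6) 1).trans (Equiv.swap 4 5) 4 = 5 by decide]; exact f1
      · rw [show (Equiv.swap (0 : Fin 6) 1).trans (Equiv.swap 4 5) 3 = 3 by decide,
          show (Equiv.swap (0 : Fin 6) 1).trans (Equiv.swap 4 5) 5 = 4 by decide]; exact f1'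
      · rw [show (Equiv.swap (0 : Fin 6) 1).trans (Equiv.swap 4 5) 0 = 1 by decide,
          show (Equiv.swap (0 : Fin 6) 1).trans (Equiv.swap 4 5) 2 = 2 by decide]; exact f3'
      · rw [show (Equiv.swap (0 : Fin 6) 1).trans (Equiv.swap 4 5) 1 = 0 by decide,
          show (Equiv.swap (0 : Fin 6) 1).trans (Equiv.swap 4 5) 3 = 3 by decide]; exact f3
  exact ⟨t, (hC.reindex t ht).conic t24 t35 t02 t13⟩

end Pool.Agent.SIX
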