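import Pool.Agent.Helper97.SIX.Alg6

/-!
# SIX: the classification, from the identity `dt (∑ X ^ φ i G i) = 0`
-/

set_option autoImplicit false
set_option linter.unusedSectionVars false

namespace Pool.Agent.SIX

open Pool.Agent.SL Polynomial

variable {F : Type*} [Field F]

/-- the sum of some of the forms -/
def GS (G : Fin 6 → Fin 6 → F) (s : Finset (Fin 6)) : Fin 6 → F := fun c => ∑ i ∈ s, G i c

/-- the form `∑ X ^ φ i G i` -/
noncomputable def GX (G : Fin 6 → Fin 6 → F) (φ : Fin 6 → ℕ) : Fin 6 → F[X] := fun c => ∑ i, C (G i c) * X ^ φ i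

theorem qf_GS (G : Fin 6 → Fin 6 → F) (s : Finset (Fin 6)) (n : Fin 3 → F) : qf (GS G s) n = ∑ i ∈ s, qf (G i) n := by
  simp only [qf, GS, Finset.sum_mul, Finset.sum_add_distrib]

/-- the situation; `φ` is sorted and starts with `0` -/
structure Sys (p : Fin 6 → Fin 3 → F) (G : Fin 6 → Fin 6 → F) (φ : Fin 6 → ℕ) (x y : Fin 3 → F) : Prop where
  gp : GenPos p
  val : ∀ i j, i ≠ j → qf (G i) (p j) = 0
  nval : ∀ i, qf (G i) (p i) ≠ 0
  mono : Monotone φ
  zero : φ 0 = 0
  P1 : dt (GX G φ) = 0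
  P2 : dt (GX G fun i => φ 5 - φ i) = 0
  hs : ∀ c, ∑ i, G i c = pr x y c
  hx : x ≠ 0
  hy : y ≠ 0

section

variable {p : Fin 6 → Fin 3 → F} {G : Fin 6 → Fin 6 → F} {φ : Fin 6 → ℕ} {x y : Fin 3 → F}

theorem Sys.at_out (h : Sys p G φ x y) (s : Finset (Fin 6)) (j : Fin 6) (hj : j ∉ s) : qf (GS G s) (p j) = 0 := by
  rw [qf_GS]
  exact Finset.sum_eq_zero fun i hi => h.val i j fun e => hj (e ▸ hi)

theorem Sys.at_in (h : Sys p G φ x y) (s : Finset (Fin 6)) (j : Fin 6) (hj : j ∈ s) : qf (GS G s) (p j) ≠ 0 := by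
  rw [qf_GS, Finset.sum_eq_single j (fun i _ hi => h.val i j hi) (fun hn => absurd hj hn)]
  exact h.nval j

theorem GX_pen (G : Fin 6 → Fin 6 → F) (φ : Fin 6 → ℕ) (s : Finset (Fin 6)) (e : ℕ) (h0 : ∀ i ∈ s, φ i = 0)
    (h1 : ∀ i ∉ s, φ i = e) : GX G φ = pen (GS G s) (GS G sᶜ) e := by
  funext c
  simp only [GX, pen, GS, map_sum, Finset.sum_mul]
  rw [← Finset.sum_add_sum_compl s]
  congr 1
  · exact Finset.sum_congr rfl fun i hi => by rw [h0 i hi, pow_zero, mul_one]
  · exact Finset.sum_congr rfl fun i hi => by rw [h1 i (Finset.mem_compl.1 hi)]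

theorem GX_pen' (G : Fin 6 → Fin 6 → F) (φ : Fin 6 → ℕ) (s : Finset (Fin 6)) (e : ℕ) (h0 : ∀ i ∈ s, φ i = 0)
    (h1 : ∀ i ∉ s, e ≤ φ i) :
    GX G φ = pen' (GS G s) (fun c => ∑ i ∈ sᶜ, C (G i c) * X ^ (φ i - e)) e := by
  funext c
  simp only [GX, pen', GS, map_sum, Finset.sum_mul]
  rw [← Finset.sum_add_sum_compl s]
  congr 1
  · exact Finset.sum_congr rfl fun i hi => by rw [h0 i hi, pow_zero, mul_one]
  · refine Finset.sum_congr rfl fun i hi => ?_
    rw [mul_assoc, ← pow_add, Nat.sub_add_cancel (h1 i (Finset.mem_compl.1 hi))]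

theorem GX_pen3 (G : Fin 6 → Fin 6 → F) (φ : Fin 6 → ℕ) (s1 s2 s3 : Finset (Fin 6)) (a b : ℕ)
    (h0 : ∀ i ∈ s1, φ i = 0) (h1 : ∀ i ∈ s2, φ i = a) (h2 : ∀ i ∈ s3, φ i = b) (hd : s1 ∪ s2 ∪ s3 = Finset.univ)
    (h12 : Disjoint s1 s2) (h3 : Disjoint (s1 ∪ s2) s3) :
    GX G φ = pen3 (GS G s1) (GS G s2) (GS G s3) a b := by
  funext c
  simp only [GX, pen3, GS, map_sum, Finset.sum_mul]
  rw [← hd, Finset.sum_union h3, Finset.sum_union h12]
  congr 1
  · congr 1
    · exact Finset.sum_congr rfl fun i hi => by rw [h0 i hi, pow_zero, mul_one]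
    · exact Finset.sum_congr rfl fun i hi => by rw [h1 i hi]
  · exact Finset.sum_congr rfl fun i hi => by rw [h2 i hi]

variable [CharZero F]

/-- the first block has at least two elements -/
theorem Sys.one (h : Sys p G φ x y) : φ 1 = 0 := by
  by_contra h1
  have hpos : ∀ i : Fin 6, i ≠ 0 → φ i ≠ 0 := by
    intro i hi h0
    have : φ 1 ≤ φ i := h.mono (by
      rw [Fin.le_iff_val_le_val]
      have := Fin.val_ne_of_ne hi
      simp only [Fin.val_zero] at this
      show 1 ≤ i.val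
      omega)
    omega
  have h2 := congrArg (fun q => Polynomial.eval 0 q) h.P1
  have h3 : eval 0 (dt (GX G φ)) = dt (G 0) := by
    have h4 : ∀ c, eval 0 (GX G φ c) = G 0 c := by
      intro c
      simp only [GX, eval_finsetSum, eval_mul, eval_C, eval_pow, eval_X]
      rw [Finset.sum_eq_single 0]
      · rw [h.zero, pow_zero, mul_one]
      · intro i _ hi
        rw [zero_pow (hpos i hi), mul_zero]
      · intro hn
        exact absurd (Finset.mem_univ _) hn
    simp only [dt, eval_add, eval_sub, eval_mul, eval_pow, eval_ofNat, h4]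
  have h4 : dt (G 0) = 0 := by
    rw [← h3]
    simpa using h2
  have B : ∀ i j l : Fin 6, i ≠ j → i ≠ l → j ≠ l → br (p i) (p j) (p l) ≠ 0 := h.gp
  exact five (G 0) (p 1) (p 2) (p 3) (p 4) (p 5) (B _ _ _ (by decide) (by decide) (by decide))
    (B _ _ _ (by decide) (by decide) (by decide)) (B _ _ _ (by decide) (by decide) (by decide))
    (B _ _ _ (by decide) (by decide) (by decide)) (B _ _ _ (by decide) (by decide) (by decide))
    (B _ _ _ (by decide) (by decide) (by decide)) (B _ _ _ (by decide) (by decide) (by decide))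
    (B _ _ _ (by decide) (by decide) (by decide)) (B _ _ _ (by decide) (by decide) (by decide))
    (B _ _ _ (by decide) (by decide) (by decide)) (h.val _ _ (by decide)) (h.val _ _ (by decide)) (h.val _ _ (by decide))
    (h.val _ _ (by decide)) (h.val _ _ (by decide)) ⟨_, h.nval 0⟩ h4

/-- inversion of the order -/
theorem Sys.rev (h : Sys p G φ x y) : Sys (p ∘ Fin.rev) (G ∘ Fin.rev) (fun i => φ 5 - φ (Fin.rev i)) x y where
  gp := h.gp.perm Fin.revPerm
  val := fun i j hij => h.val _ _ (Fin.rev_injective.ne hij)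
  nval := fun i => h.nval _
  mono := fun i j hij => by
    have := h.mono (Fin.rev_le_rev.2 hij)
    show φ 5 - φ _ ≤ φ 5 - φ _
    omega
  zero := by
    show φ 5 - φ (Fin.rev 0) = 0
    have : Fin.rev (0 : Fin 6) = 5 := by decide
    rw [this]
    omega
  P1 := by
    have : GX (G ∘ Fin.rev) (fun i => φ 5 - φ (Fin.rev i)) = GX G fun i => φ 5 - φ i := by
      funext c
      exact Equiv.sum_comp Fin.revPerm (fun i => C (G i c) * X ^ (φ 5 - φ i))
    rw [this]
    exact h.P2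
  P2 := by
    have : GX (G ∘ Fin.rev) (fun i => (φ 5 - φ (Fin.rev 5)) - (φ 5 - φ (Fin.rev i))) = GX G φ := by
      funext c
      have e : ∀ i, (φ 5 - φ (Fin.rev 5)) - (φ 5 - φ (Fin.rev i)) = φ (Fin.rev i) := by
        intro i
        have h1 : Fin.rev (5 : Fin 6) = 0 := by decide
        have h2 : φ (Fin.rev i) ≤ φ 5 := h.mono (Fin.le_last _)
        rw [h1, h.zero]
        omega
      simp only [e, GX]
      exact Equiv.sum_comp Fin.revPerm (fun i => C (G i c) * X ^ (φ i))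
    show dt (GX (G ∘ Fin.rev) (fun i => (φ 5 - φ (Fin.rev 5)) - (φ 5 - φ (Fin.rev i)))) = 0
    rw [this]
    exact h.P1
  hs := fun c => by
    rw [← h.hs c]
    exact Equiv.sum_comp Fin.revPerm (fun i => G i c)
  hx := h.hx
  hy := h.hy

theorem two_forms {G1 G2 : Fin 6 → F} {x y : Fin 3 → F} (hs : ∀ i, G1 i + G2 i = pr x y i) (hx : x ≠ 0)
    (hy : y ≠ 0) {P : Fin 3 → F} (h : ∀ n, bf G1 P n = 0 ∧ bf G2 P n = 0) : dot P x = 0 ∧ dot P y = 0 := by
  refine on_line x y hx hy P fun n => ?_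
  have : bf (pr x y) P n = bf G1 P n + bf G2 P n := by
    have e : pr x y = fun i => G1 i + G2 i := funext fun i => (hs i).symm
    rw [e]
    unfold bf; ring
  rw [this, (h n).1, (h n).2]
  ring

theorem Sys.sum2 (h : Sys p G φ x y) (s : Finset (Fin 6)) (c : Fin 6) : GS G s c + GS G sᶜ c = pr x y c := by
  rw [← h.hs c]
  exact Finset.sum_add_sum_compl s fun i => G i c

/-- blocks `{0, 1}` and the rest -/
theorem Sys.case24 (h : Sys p G φ x y) (e : ℕ) (he : 0 < e) (h2 : φ 2 = e) (h5 : φ 5 = e) : OutL p x y := by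
  have B : ∀ i j l : Fin 6, i ≠ j → i ≠ l → j ≠ l → br (p i) (p j) (p l) ≠ 0 := h.gp
  have hφ : ∀ i : Fin 6, i ∉ ({0, 1} : Finset (Fin 6)) → φ i = e := by
    intro i hi
    have h3 : φ 2 ≤ φ i := h.mono (by
      have h4 : i ≠ 0 ∧ i ≠ 1 := by simpa using hi
      have h5 := Fin.val_ne_of_ne h4.1
      have h6 := Fin.val_ne_of_ne h4.2
      rw [Fin.le_iff_val_le_val]
      show 2 ≤ i.val
      simp only [Fin.val_zero] at h5
      have : (1 : Fin 6).val = 1 := rfl
      omega)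
    have h4 : φ i ≤ φ 5 := h.mono (Fin.le_last _)
    omega
  have hφ0 : ∀ i ∈ ({0, 1} : Finset (Fin 6)), φ i = 0 := by
    intro i hi
    rcases Finset.mem_insert.1 hi with rfl | hi
    · exact h.zero
    · rw [Finset.mem_singleton.1 hi]
      exact h.one
  have hP := h.P1
  rw [GX_pen G φ {0, 1} e hφ0 hφ] at hP
  set G1 := GS G {0, 1} with hG1
  set G2 := GS G ({0, 1} : Finset (Fin 6))ᶜ with hG2
  have hdt1 : dt G1 = 0 := by
    have h1 := congrArg (fun q => Polynomial.eval 0 q) hP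
    have h2 : eval 0 (dt (pen G1 G2 e)) = dt G1 := by
      simp only [dt, pen, eval_add, eval_sub, eval_mul, eval_pow, eval_C, eval_X, eval_ofNat,
        zero_pow he.ne', mul_zero, add_zero]
    rw [← h2]
    simpa using h1
  have z1 : ∀ j : Fin 6, j ∉ ({0, 1} : Finset (Fin 6)) → qf G1 (p j) = 0 := fun j hj => h.at_out _ j hj
  have n2 : ∀ j : Fin 6, j ∈ ({0, 1} : Finset (Fin 6))ᶜ → qf G2 (p j) ≠ 0 := fun j hj => h.at_in _ j hj
  have main : ∀ a b c d : Fin 6, [a, b, c, d].Nodup → a ∉ ({0, 1} : Finset (Fin 6)) → b ∉ ({0, 1} : Finset (Fin 6)) →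
      c ∉ ({0, 1} : Finset (Fin 6)) → d ∉ ({0, 1} : Finset (Fin 6)) → bf G1 (p a) (p b) = 0 → bf G1 (p c) (p d) = 0 →
      OutL p x y := by
    intro a b c d hn ha hb hc hd h1 h2
    refine ⟨a, b, c, d, hn, two_forms (h.sum2 {0, 1}) h.hx h.hy fun n => ?_⟩
    simp only [List.nodup_cons, List.mem_cons, List.not_mem_nil, or_false, not_or, not_false_eq_true,
      List.nodup_nil, and_true] at hn
    obtain ⟨⟨hab, hac, had⟩, ⟨hbc, hbd⟩, hcd⟩ := hn
    exact two_four G1 G2 he hP (p a) (p b) (p c) (p d) (B _ _ _ hab hac hbc) (B _ _ _ hab had hbd) (B _ _ _ hac had hcd)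
      (z1 a ha) (z1 b hb) (z1 c hc) (z1 d hd) ⟨_, h.at_in _ 0 (by decide)⟩ h1 h2 (n2 a (Finset.mem_compl.2 ha))
      (n2 c (Finset.mem_compl.2 hc)) n
  rcases four G1 (p 2) (p 3) (p 4) (p 5) (B _ _ _ (by decide) (by decide) (by decide))
    (B _ _ _ (by decide) (by decide) (by decide)) (B _ _ _ (by decide) (by decide) (by decide))
    (B _ _ _ (by decide) (by decide) (by decide)) (z1 _ (by decide)) (z1 _ (by decide)) (z1 _ (by decide))
    (z1 _ (by decide)) hdt1 with ⟨f, f'⟩ | ⟨f, f'⟩ | ⟨f, f'⟩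
  · exact main 2 3 4 5 (by decide) (by decide) (by decide) (by decide) (by decide) f f'
  · exact main 2 4 3 5 (by decide) (by decide) (by decide) (by decide) (by decide) f f'
  · exact main 2 5 3 4 (by decide) (by decide) (by decide) (by decide) (by decide) f f'

/-- blocks `{0, 1}`, `{2}` and the rest -/
theorem Sys.case21 (h : Sys p G φ x y) (h2 : 0 < φ 2) (h3 : φ 2 < φ 3) : False := by
  have B : ∀ i j l : Fin 6, i ≠ j → i ≠ l → j ≠ l → br (p i) (p j) (p l) ≠ 0 := h.gp
  have hge : ∀ i : Fin 6, i ∉ ({0, 1} : Finset (Fin 6)) → φ 2 ≤ φ i := by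
    intro i hi
    exact h.mono (by
      have h4 : i ≠ 0 ∧ i ≠ 1 := by simpa using hi
      have h5 := Fin.val_ne_of_ne h4.1
      have h6 := Fin.val_ne_of_ne h4.2
      rw [Fin.le_iff_val_le_val]
      show 2 ≤ i.val
      simp only [Fin.val_zero] at h5
      have : (1 : Fin 6).val = 1 := rfl
      omega)
  have hgt : ∀ i ∈ ({0, 1} : Finset (Fin 6))ᶜ, i ≠ 2 → φ i - φ 2 ≠ 0 := by
    intro i hi hi2
    have h3' : φ 3 ≤ φ i := h.mono (by
      have h4 : i ≠ 0 ∧ i ≠ 1 := by simpa using hi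
      have h5 := Fin.val_ne_of_ne h4.1
      have h6 := Fin.val_ne_of_ne h4.2
      have h7 := Fin.val_ne_of_ne hi2
      rw [Fin.le_iff_val_le_val]
      show 3 ≤ i.val
      simp only [Fin.val_zero] at h5
      have : (1 : Fin 6).val = 1 := rfl
      have : (2 : Fin 6).val = 2 := rfl
      omega)
    omega
  have hφ0 : ∀ i ∈ ({0, 1} : Finset (Fin 6)), φ i = 0 := by
    intro i hi
    rcases Finset.mem_insert.1 hi with rfl | hi
    · exact h.zero
    · rw [Finset.mem_singleton.1 hi]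
      exact h.one
  have hP := h.P1
  rw [GX_pen' G φ {0, 1} (φ 2) hφ0 hge] at hP
  set G1 := GS G {0, 1} with hG1
  have hB : ∀ c, eval 0 (∑ i ∈ ({0, 1} : Finset (Fin 6))ᶜ, C (G i c) * X ^ (φ i - φ 2)) = G 2 c := by
    intro c
    rw [eval_finsetSum, Finset.sum_eq_single 2]
    · simp
    · intro i hi hi2
      rw [eval_mul, eval_pow, eval_X, zero_pow (hgt i hi hi2), mul_zero]
    · intro hn
      exact absurd (by decide) hn
  have hdt1 : dt G1 = 0 := by
    have h1 := congrArg (fun q => Polynomial.eval 0 q) hP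
    have h4 : ∀ B : Fin 6 → F[X], eval 0 (dt (pen' G1 B (φ 2))) = dt G1 := by
      intro B
      simp only [dt, pen', eval_add, eval_sub, eval_mul, eval_pow, eval_C, eval_X, eval_ofNat,
        zero_pow h2.ne', mul_zero, add_zero]
    rw [← h4]
    simpa using h1
  have z1 : ∀ j : Fin 6, j ∉ ({0, 1} : Finset (Fin 6)) → qf G1 (p j) = 0 := fun j hj => h.at_out _ j hj
  have hne := five (G 2) (p 0) (p 1) (p 3) (p 4) (p 5) (B _ _ _ (by decide) (by decide) (by decide))
    (B _ _ _ (by decide) (by decide) (by decide)) (B _ _ _ (by decide) (by decide) (by decide))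
    (B _ _ _ (by decide) (by decide) (by decide)) (B _ _ _ (by decide) (by decide) (by decide))
    (B _ _ _ (by decide) (by decide) (by decide)) (B _ _ _ (by decide) (by decide) (by decide))
    (B _ _ _ (by decide) (by decide) (by decide)) (B _ _ _ (by decide) (by decide) (by decide))
    (B _ _ _ (by decide) (by decide) (by decide)) (h.val _ _ (by decide)) (h.val _ _ (by decide)) (h.val _ _ (by decide))
    (h.val _ _ (by decide)) (h.val _ _ (by decide)) ⟨_, h.nval 2⟩
  have main : ∀ b c d : Fin 6, [2, b, c, d].Nodup → b ∉ ({0, 1} : Finset (Fin 6)) →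
      c ∉ ({0, 1} : Finset (Fin 6)) → d ∉ ({0, 1} : Finset (Fin 6)) → bf G1 (p 2) (p b) = 0 → bf G1 (p c) (p d) = 0 →
      False := by
    intro b c d hn hb hc hd h1 h2'
    simp only [List.nodup_cons, List.mem_cons, List.not_mem_nil, or_false, not_or, not_false_eq_true,
      List.nodup_nil, and_true] at hn
    obtain ⟨⟨hab, hac, had⟩, ⟨hbc, hbd⟩, hcd⟩ := hn
    exact hne (single G1 _ h2 hP (p 2) (p b) (p c) (p d) (B _ _ _ hab hac hbc) (B _ _ _ hab had hbd) (B _ _ _ hac had hcd)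
      (z1 2 (by decide)) (z1 b hb) (z1 c hc) (z1 d hd) ⟨_, h.at_in _ 0 (by decide)⟩ h1 h2' (G 2) hB (h.val _ _ hac)
      (h.val _ _ had))
  rcases four G1 (p 2) (p 3) (p 4) (p 5) (B _ _ _ (by decide) (by decide) (by decide))
    (B _ _ _ (by decide) (by decide) (by decide)) (B _ _ _ (by decide) (by decide) (by decide))
    (B _ _ _ (by decide) (by decide) (by decide)) (z1 _ (by decide)) (z1 _ (by decide)) (z1 _ (by decide))
    (z1 _ (by decide)) hdt1 with ⟨f, f'⟩ | ⟨f, f'⟩ | ⟨f, f'⟩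
  · exact main 3 4 5 (by decide) (by decide) (by decide) (by decide) f f'
  · exact main 4 3 5 (by decide) (by decide) (by decide) (by decide) f f'
  · exact main 5 3 4 (by decide) (by decide) (by decide) (by decide) f f'

/-- three blocks with two elements -/
theorem Sys.case222 (h : Sys p G φ x y) (h2 : 0 < φ 2) (h23 : φ 2 = φ 3) (h34 : φ 3 < φ 4) (h45 : φ 4 = φ 5) :
    Out p x y := by
  have e0 : ∀ i ∈ ({0, 1} : Finset (Fin 6)), φ i = 0 := by
    intro i hi
    rcases Finset.mem_insert.1 hi with rfl | hi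
    · exact h.zero
    · rw [Finset.mem_singleton.1 hi]
      exact h.one
  have e1 : ∀ i ∈ ({2, 3} : Finset (Fin 6)), φ i = φ 2 := by
    intro i hi
    rcases Finset.mem_insert.1 hi with rfl | hi
    · rfl
    · rw [Finset.mem_singleton.1 hi, h23]
  have e2 : ∀ i ∈ ({4, 5} : Finset (Fin 6)), φ i = φ 5 := by
    intro i hi
    rcases Finset.mem_insert.1 hi with rfl | hi
    · exact h45
    · rw [Finset.mem_singleton.1 hi]
  refine Cfg.out (G1 := GS G {0, 1}) (G2 := GS G {2, 3}) (G3 := GS G {4, 5}) (a := φ 2) (b := φ 5)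
    { gp := h.gp
      ha := h2
      hab := by omega
      dt1 := ?_
      dt2 := ?_
      z1 := fun i hi => h.at_out _ i ?_
      n1 := fun i hi => h.at_in _ i ?_
      z2 := fun i hi => h.at_out _ i ?_
      n2 := fun i hi hi' => h.at_in _ i ?_
      z3 := fun i hi => h.at_out _ i ?_
      n3 := fun i hi => h.at_in _ i ?_
      hs := fun c => ?_
      hx := h.hx
      hy := h.hy }
  · rw [← GX_pen3 G φ {0, 1} {2, 3} {4, 5} (φ 2) (φ 5) e0 e1 e2 (by decide) (by decide) (by decide)]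
    exact h.P1
  · rw [← GX_pen3 G (fun i => φ 5 - φ i) {4, 5} {2, 3} {0, 1} (φ 5 - φ 2) (φ 5) (fun i hi => by rw [e2 i hi]; omega)
      (fun i hi => by rw [e1 i hi]) (fun i hi => by rw [e0 i hi]; omega) (by decide) (by decide) (by decide)]
    exact h.P2
  · revert hi; revert i; decide
  · revert hi; revert i; decide
  · revert hi; revert i; decide
  · revert hi hi'; revert i; decide
  · revert hi; revert i; decide
  · revert hi; revert i; decide
  · rw [← h.hs c, Fin.sum_univ_six]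
    simp only [GS, Finset.sum_pair (show (0 : Fin 6) ≠ 1 by decide), Finset.sum_pair (show (2 : Fin 6) ≠ 3 by decide),
      Finset.sum_pair (show (4 : Fin 6) ≠ 5 by decide)]
    ring

/-- two blocks with three elements -/
theorem Sys.case33 (h : Sys p G φ x y) (e : ℕ) (he : 0 < e) (h2 : φ 2 = 0) (h3 : φ 3 = e) (h5 : φ 5 = e) : OutL p x y := by
  have B : ∀ i j l : Fin 6, i ≠ j → i ≠ l → j ≠ l → br (p i) (p j) (p l) ≠ 0 := h.gp
  have hφ : ∀ i : Fin 6, i ∉ ({0, 1, 2} : Finset (Fin 6)) → φ i = e := by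
    intro i hi
    have h3' : φ 3 ≤ φ i := h.mono (by
      revert hi; revert i; decide)
    have h4 : φ i ≤ φ 5 := h.mono (Fin.le_last _)
    omega
  have hφ0 : ∀ i ∈ ({0, 1, 2} : Finset (Fin 6)), φ i = 0 := by
    intro i hi
    have : φ i ≤ φ 2 := h.mono (by
      revert hi; revert i; decide)
    omega
  have hP := h.P1
  rw [GX_pen G φ {0, 1, 2} e hφ0 hφ] at hP
  set G1 := GS G {0, 1, 2} with hG1
  set G2 := GS G ({0, 1, 2} : Finset (Fin 6))ᶜ with hG2
  have hdt1 : dt G1 = 0 := by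
    have h1 := congrArg (fun q => Polynomial.eval 0 q) hP
    have h2 : eval 0 (dt (pen G1 G2 e)) = dt G1 := by
      simp only [dt, pen, eval_add, eval_sub, eval_mul, eval_pow, eval_C, eval_X, eval_ofNat,
        zero_pow he.ne', mul_zero, add_zero]
    rw [← h2]
    simpa using h1
  have z1 : ∀ j : Fin 6, j ∉ ({0, 1, 2} : Finset (Fin 6)) → qf G1 (p j) = 0 := fun j hj => h.at_out _ j hj
  have n2 : ∀ j : Fin 6, j ∈ ({0, 1, 2} : Finset (Fin 6))ᶜ → qf G2 (p j) ≠ 0 := fun j hj => h.at_in _ j hj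
  have z2 : ∀ j : Fin 6, j ∉ ({0, 1, 2} : Finset (Fin 6))ᶜ → qf G2 (p j) = 0 := fun j hj => h.at_out _ j hj
  have main : ∀ a b c : Fin 6, [a, b, c].Nodup → a ∉ ({0, 1, 2} : Finset (Fin 6)) → b ∉ ({0, 1, 2} : Finset (Fin 6)) →
      c ∉ ({0, 1, 2} : Finset (Fin 6)) → bf G1 (p a) (p b) = 0 → OutL p x y := by
    intro a b c hn ha hb hc h1
    simp only [List.nodup_cons, List.mem_cons, List.not_mem_nil, or_false, not_or, not_false_eq_true,
      List.nodup_nil, and_true] at hn
    obtain ⟨⟨hab, hac⟩, hbc⟩ := hn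
    obtain ⟨P, s, t, hs, ht, hPst, hP1, hP2⟩ := tt1 G1 G2 he hP (p a) (p b) (p c) (B _ _ _ hab hac hbc) (z1 a ha) (z1 b hb)
      (z1 c hc) ⟨_, h.at_in _ 0 (by decide)⟩ h1 (n2 a (Finset.mem_compl.2 ha)) (n2 b (Finset.mem_compl.2 hb))
      (n2 c (Finset.mem_compl.2 hc))
    have hP0 : P ≠ 0 := by
      intro h0
      have h6 : s * br (p a) (p b) (p c) = br P (p b) (p c) := by
        rw [br_lin1 _ _ _ _ _ _ _ hPst]
        have : br (p b) (p b) (p c) = 0 := by unfold br; ring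
        rw [this]; ring
      rw [h0] at h6
      have h7 : br (0 : Fin 3 → F) (p b) (p c) = 0 := by simp [br]
      rw [h7] at h6
      exact mul_ne_zero hs (B _ _ _ hab hac hbc) h6
    obtain ⟨k1, k2⟩ := two_forms (h.sum2 {0, 1, 2}) h.hx h.hy fun n => ⟨hP1 n, hP2 n⟩
    have fin : ∀ m n : Fin 6, [a, b, m, n].Nodup → br P (p m) (p n) = 0 → OutL p x y := fun m n hn h0 =>
      ⟨a, b, m, n, hn, on_vx _ _ _ _ P x s t hPst hs h0 k1, on_vx _ _ _ _ P y s t hPst hs h0 k2⟩
    have nd : ∀ m n : Fin 6, m ∈ ({0, 1, 2} : Finset (Fin 6)) → n ∈ ({0, 1, 2} : Finset (Fin 6)) → m ≠ n →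
        [a, b, m, n].Nodup := by
      intro m n hm hn hmn
      simp only [List.nodup_cons, List.mem_cons, List.not_mem_nil, or_false, not_or, not_false_eq_true,
        List.nodup_nil, and_true]
      exact ⟨⟨hab, fun e => ha (e ▸ hm), fun e => ha (e ▸ hn)⟩, ⟨fun e => hb (e ▸ hm), fun e => hb (e ▸ hn)⟩, hmn⟩
    rcases tt3 G2 P (p 0) (p 1) (p 2) (B _ _ _ (by decide) (by decide) (by decide)) (z2 _ (by decide)) (z2 _ (by decide))
      (z2 _ (by decide)) ⟨_, h.at_in _ 3 (by decide)⟩ hP0 hP2 with h0 | h0 | h0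
    · exact fin 0 1 (nd 0 1 (by decide) (by decide) (by decide)) h0
    · exact fin 0 2 (nd 0 2 (by decide) (by decide) (by decide)) h0
    · exact fin 1 2 (nd 1 2 (by decide) (by decide) (by decide)) h0
  have h1 := gram G1 (p 3) (p 4) (p 5)
  rw [z1 3 (by decide), z1 4 (by decide), z1 5 (by decide), hdt1] at h1
  have h2 : bf G1 (p 3) (p 4) * bf G1 (p 4) (p 5) * bf G1 (p 3) (p 5) = 0 := by linear_combination h1
  rcases mul_eq_zero.1 h2 with h2 | h2
  · rcases mul_eq_zero.1 h2 with h2 | h2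
    · exact main 3 4 5 (by decide) (by decide) (by decide) (by decide) h2
    · exact main 4 5 3 (by decide) (by decide) (by decide) (by decide) h2
  · exact main 3 5 4 (by decide) (by decide) (by decide) (by decide) h2

/-- the first two exponents differ from the third one -/
theorem Sys.pos (h : Sys p G φ x y) (h2 : 0 < φ 2) : Out p x y := by
  have h23 : φ 2 ≤ φ 3 := h.mono (by decide)
  have h34 : φ 3 ≤ φ 4 := h.mono (by decide)
  have h45 : φ 4 = φ 5 := by
    have h1 := h.rev.one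
    have e : Fin.rev (1 : Fin 6) = 4 := by decide
    rw [e] at h1
    have h2 : φ 4 ≤ φ 5 := h.mono (by decide)
    omega
  rcases h23.lt_or_eq with h23 | h23
  · exact (h.case21 h2 h23).elim
  rcases h34.lt_or_eq with h34 | h34
  · exact h.case222 h2 h23 h34 h45
  · exact Or.inl (h.case24 (φ 2) h2 rfl (by omega))

theorem Sys.main (h : Sys p G φ x y) : φ 5 = 0 ∨ Out p x y := by
  by_cases h5 : φ 5 = 0
  · exact Or.inl h5
  right
  by_cases h2 : 0 < φ 2
  · exact h.pos h2
  by_cases h3 : φ 3 < φ 5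
  · have h1 := h.rev.pos (by
      have e : Fin.rev (2 : Fin 6) = 3 := by decide
      rw [e]
      omega)
    exact h1.perm Fin.revPerm
  · have h4 : φ 3 ≤ φ 5 := h.mono (by decide)
    exact Or.inl (h.case33 (φ 5) (by omega) (by omega) (by omega) rfl)

end

end Pool.Agent.SIX
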