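import Pool.Agent.Helper97.SIX.Alg7
import Pool.Agent.Helper16.SL.Line
import Pool.Agent.Helper16.SL.Pairs

/-!
# SIX: the unit theorem
-/

set_option autoImplicit false
set_option linter.unusedSectionVars false

namespace Pool.Agent.SIX

open Pool.Agent.SL Polynomial

universe u v

variable {K : Type u} {Ω : Type v} [Field K] [Field Ω] [Algebra K Ω]

/-- a relation between units splits according to the classes -/
theorem classes (D : Dat K Ω) {ι : Type*} [Fintype ι] (y : ι → Ω) (hy : ∀ i, D.U (y i)) (c : ι → K)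
    (h : ∑ i, algebraMap K Ω (c i) * y i = 0) (f : ι → ℤ) (hf : ∀ i j, Cst K (y i / y j) → f i = f j) (N : ℤ) :
    ∑ i, (if f i = N then algebraMap K Ω (c i) * y i else 0) = 0 := by
  classical
  let r : Setoid ι :=
    { r := fun i j => ∃ a : K, y i = algebraMap K Ω a * y j
      iseqv :=
        { refl := fun i => ⟨1, by rw [map_one, one_mul]⟩
          symm := by
            rintro i j ⟨a, ha⟩
            have ha0 : algebraMap K Ω a ≠ 0 := by
              intro h0
              rw [h0, zero_mul] at ha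
              exact (hy i).1 ha
            refine ⟨a⁻¹, ?_⟩
            rw [ha, map_inv₀, ← mul_assoc, inv_mul_cancel₀ ha0, one_mul]
          trans := by
            rintro i j l ⟨a, ha⟩ ⟨b, hb⟩
            exact ⟨a * b, by rw [ha, hb, map_mul, mul_assoc]⟩ } }
  have hr : ∀ i j, r.r i j → f i = f j := by
    rintro i j ⟨a, ha⟩
    refine hf i j ⟨a, ?_⟩
    rw [ha, mul_div_assoc, div_self (hy j).1, mul_one]
  have hout : ∀ i, ∃ a : K, y i = algebraMap K Ω a * y (Quotient.out (Quotient.mk r i)) := by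
    intro i
    have := Setoid.symm (Quotient.mk_out (s := r) i)
    exact this
  choose κ hκ using hout
  let e := Fintype.equivFin (Quotient r)
  let z : Fin (Fintype.card (Quotient r)) → Ω := fun n => y (Quotient.out (e.symm n))
  have hli : LinearIndependent K z := by
    refine D.indep _ z (fun n => hy _) ?_
    intro m n hmn a ha
    apply hmn
    have h1 : r.r (Quotient.out (e.symm m)) (Quotient.out (e.symm n)) := ⟨a, ha⟩
    have h2 : Quotient.mk r (Quotient.out (e.symm m)) = Quotient.mk r (Quotient.out (e.symm n)) := Quotient.sound h1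
    rw [Quotient.out_eq, Quotient.out_eq] at h2
    exact e.symm.injective h2
  have hli' : LinearIndependent K fun q : Quotient r => y (Quotient.out q) := by
    have : (fun q : Quotient r => y (Quotient.out q)) = z ∘ e := by
      funext q
      show _ = y (Quotient.out (e.symm (e q)))
      rw [e.symm_apply_apply]
    rw [this]
    exact hli.comp _ e.injective
  rw [Fintype.linearIndependent_iff] at hli'
  have hsum : ∑ q : Quotient r, (∑ i ∈ Finset.univ.filter fun i => Quotient.mk r i = q, c i * κ i) • y (Quotient.out q) =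
      0 := by
    rw [← h, ← Finset.sum_fiberwise Finset.univ (fun i => Quotient.mk r i)]
    refine Finset.sum_congr rfl fun q _ => ?_
    rw [Finset.sum_smul]
    refine Finset.sum_congr rfl fun i hi => ?_
    have h1 : Quotient.mk r i = q := (Finset.mem_filter.1 hi).2
    have h2 := hκ i
    rw [h1] at h2
    rw [h2, Algebra.smul_def, map_mul, mul_assoc]
  have h0 := hli' _ hsum
  rw [← Finset.sum_fiberwise Finset.univ (fun i => Quotient.mk r i)]
  refine Finset.sum_eq_zero fun q _ => ?_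
  by_cases hq : f (Quotient.out q) = N
  · have h1 : ∀ i ∈ Finset.univ.filter (fun i => Quotient.mk r i = q), (if f i = N then algebraMap K Ω (c i) * y i else 0) =
        algebraMap K Ω (c i * κ i) * y (Quotient.out q) := by
      intro i hi
      have h1 : Quotient.mk r i = q := (Finset.mem_filter.1 hi).2
      have h2 := hκ i
      rw [h1] at h2
      have h3 : f i = f (Quotient.out q) := hr _ _ ⟨κ i, h2⟩
      rw [if_pos (h3.trans hq)]
      nth_rewrite 1 [h2]
      rw [map_mul]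
      ring
    rw [Finset.sum_congr rfl h1, ← Finset.sum_mul, ← map_sum, h0 q, map_zero, zero_mul]
  · refine Finset.sum_eq_zero fun i hi => ?_
    have h1 : Quotient.mk r i = q := (Finset.mem_filter.1 hi).2
    have h2 := hκ i
    rw [h1] at h2
    have h3 : f i = f (Quotient.out q) := hr _ _ ⟨κ i, h2⟩
    rw [if_neg]
    rw [h3]
    exact hq

/-- the coefficients of the discriminant -/
def dco {R : Type*} [CommRing R] (M : Fin 6 → Fin 6 → R) (t : Fin 6 × Fin 6 × Fin 6) : R :=
  4 * M t.1 0 * M t.2.1 1 * M t.2.2 2 + M t.1 3 * M t.2.1 4 * M t.2.2 5 - M t.1 0 * M t.2.1 3 * M t.2.2 3 -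
    M t.1 1 * M t.2.1 4 * M t.2.2 4 - M t.1 2 * M t.2.1 5 * M t.2.2 5

theorem triple {R : Type*} [CommRing R] (a b c : Fin 6 → R) :
    (∑ i, a i) * (∑ i, b i) * ∑ i, c i = ∑ t : Fin 6 × Fin 6 × Fin 6, a t.1 * b t.2.1 * c t.2.2 := by
  rw [Fintype.sum_prod_type]
  simp only [Fintype.sum_prod_type]
  rw [Finset.sum_mul_sum, Finset.sum_mul]
  refine Finset.sum_congr rfl fun i _ => ?_
  rw [Finset.sum_mul]
  refine Finset.sum_congr rfl fun j _ => ?_
  rw [Finset.mul_sum]

theorem dt_sum {R : Type*} [CommRing R] (M : Fin 6 → Fin 6 → R) :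
    dt (fun c => ∑ i, M i c) = ∑ t : Fin 6 × Fin 6 × Fin 6, dco M t := by
  have h1 := triple (fun i => 4 * M i 0) (fun i => M i 1) (fun i => M i 2)
  have h2 := triple (fun i => M i 3) (fun i => M i 4) (fun i => M i 5)
  have h3 := triple (fun i => M i 0) (fun i => M i 3) (fun i => M i 3)
  have h4 := triple (fun i => M i 1) (fun i => M i 4) (fun i => M i 4)
  have h5 := triple (fun i => M i 2) (fun i => M i 5) (fun i => M i 5)
  simp only [dco, Finset.sum_sub_distrib, Finset.sum_add_distrib]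
  rw [← h1, ← h2, ← h3, ← h4, ← h5, ← Finset.mul_sum]
  simp only [dt]
  ring

/-- compatible exponents -/
def Cmp (K : Type u) {Ω : Type v} [Field K] [Field Ω] [Algebra K Ω] (w : Fin 6 → Ω) (ψ : Fin 6 → ℤ) : Prop :=
  ∀ s t : Fin 6 × Fin 6 × Fin 6, Cst K (w s.1 * w s.2.1 * w s.2.2 / (w t.1 * w t.2.1 * w t.2.2)) →
    ψ s.1 + ψ s.2.1 + ψ s.2.2 = ψ t.1 + ψ t.2.1 + ψ t.2.2

theorem dt_zero (D : Dat K Ω) (w : Fin 6 → Ω) (hw : ∀ i, D.U (w i)) (M : Fin 6 → Fin 6 → K)
    (h0 : dt (fun c => ∑ i, w i * algebraMap K Ω (M i c)) = 0) (ψ : Fin 6 → ℕ) (hψ : Cmp K w fun i => (ψ i : ℤ)) :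
    dt (GX (fun i c => w i * algebraMap K Ω (M i c)) ψ) = 0 := by
  have h1 : GX (fun i c => w i * algebraMap K Ω (M i c)) ψ =
      fun c => ∑ i, C (w i * algebraMap K Ω (M i c)) * X ^ ψ i := rfl
  rw [h1, dt_sum]
  rw [dt_sum] at h0
  have h2 : ∀ t : Fin 6 × Fin 6 × Fin 6, dco (fun i c => w i * algebraMap K Ω (M i c)) t =
      algebraMap K Ω (dco M t) * (w t.1 * w t.2.1 * w t.2.2) := by
    intro t
    simp only [dco, map_sub, map_add, map_mul, map_ofNat]
    ring
  have h3 : ∀ t : Fin 6 × Fin 6 × Fin 6, dco (fun i c => C (w i * algebraMap K Ω (M i c)) * X ^ ψ i) t =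
      C (algebraMap K Ω (dco M t) * (w t.1 * w t.2.1 * w t.2.2)) * X ^ (ψ t.1 + ψ t.2.1 + ψ t.2.2) := by
    intro t
    simp only [dco, map_sub, map_add, map_mul, map_ofNat, pow_add]
    ring
  simp only [h2] at h0
  simp only [h3]
  ext N
  rw [finsetSum_coeff, coeff_zero]
  simp only [coeff_C_mul_X_pow]
  have h4 := classes D (fun t : Fin 6 × Fin 6 × Fin 6 => w t.1 * w t.2.1 * w t.2.2)
    (fun t => ((hw _).mul (hw _)).mul (hw _)) (dco M) h0
    (fun t => ((ψ t.1 : ℤ) + ψ t.2.1 + ψ t.2.2)) (fun s t h => hψ s t h) N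
  refine (Finset.sum_congr rfl fun t _ => ?_).trans h4
  by_cases h : N = ψ t.1 + ψ t.2.1 + ψ t.2.2
  · rw [if_pos h, if_pos (by rw [h]; push_cast; ring)]
  · rw [if_neg h, if_neg (fun h' => h (by exact_mod_cast h'.symm))]

theorem cst_of_zpow (D : Dat K Ω) {y : Ω} (hy : D.U y) {M : ℤ} (hM : M ≠ 0) (h : Cst K (y ^ M)) : Cst K y := by
  have key : ∀ y : Ω, D.U y → ∀ n : ℕ, 0 < n → Cst K (y ^ n) → Cst K y := by
    rintro y hy n hn ⟨a, ha⟩
    exact D.root y hy.2.1 n hn a ha
  rcases Int.natAbs_eq M with h1 | h1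
  · rw [h1, zpow_natCast] at h
    exact key y hy _ (Int.natAbs_pos.2 hM) h
  · rw [h1, zpow_neg, zpow_natCast, ← inv_pow] at h
    obtain ⟨a, ha⟩ := key y⁻¹ hy.inv _ (Int.natAbs_pos.2 hM) h
    refine ⟨a⁻¹, ?_⟩
    rw [map_inv₀, ← ha, inv_inv]

/-- the exponents -/
theorem exists_exp (D : Dat K Ω) (w : Fin 6 → Ω) (hw : ∀ i, D.U (w i)) :
    ∃ φ : Fin 6 → ℤ, Cmp K w φ ∧ ∀ i j, φ i = φ j → Cst K (w i / w j) := by
  classical
  have hw0 : ∀ i, w i ≠ 0 := fun i => (hw i).1
  set N := pairsRel K w hw0 with hN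
  let ι := {p : Fin 6 × Fin 6 // ¬ Cst K (w p.1 / w p.2)}
  let f : ι → Module.Dual ℚ (Fin 6 → ℚ) := fun p =>
    (LinearMap.proj p.1.1 : (Fin 6 → ℚ) →ₗ[ℚ] ℚ) - LinearMap.proj p.1.2
  have hf : ∀ (p : ι) (φ : Fin 6 → ℚ), f p φ = φ p.1.1 - φ p.1.2 := fun p φ => rfl
  obtain ⟨φ, hφW, hφ⟩ := Module.Dual.exists_forall_mem_ne_zero_of_forall_exists (pairsOrth N) f (by
    rintro ⟨⟨i, j⟩, hij⟩
    by_contra hcon
    push Not at hcon
    apply hij
    have hij' : i ≠ j := by
      rintro rfl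
      exact hij ⟨1, by rw [map_one]; exact div_self (hw0 i)⟩
    have hx : ∀ φ ∈ pairsOrth N, ∑ t, (Pi.single i 1 - Pi.single j 1 : Fin 6 → ℚ) t * φ t = 0 := by
      intro φ hφ
      have h1 : φ i - φ j = 0 := hcon φ hφ
      rw [← h1]
      simp only [Pi.sub_apply, sub_mul, Finset.sum_sub_distrib]
      simp [Pi.single_apply]
    obtain ⟨M, hM, n, hn, hnM⟩ := pairsDbl N _ hx
    have h2 : n = M • (Pi.single i 1 - Pi.single j 1 : Fin 6 → ℤ) := by
      funext t
      have h3 := hnM t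
      have h4 : ((Pi.single i 1 - Pi.single j 1 : Fin 6 → ℚ) t) = (((Pi.single i 1 - Pi.single j 1 : Fin 6 → ℤ) t : ℤ) : ℚ) := by
        simp only [Pi.sub_apply, Pi.single_apply]
        push_cast
        rfl
      rw [h4] at h3
      rw [Pi.smul_apply, smul_eq_mul]
      exact_mod_cast h3
    have h3 : ∏ t, w t ^ n t = (w i / w j) ^ M := by
      rw [h2]
      have h5 : ∀ (i : Fin 6), ∏ t, w t ^ (Pi.single i M : Fin 6 → ℤ) t = w i ^ M := by
        intro i
        rw [Finset.prod_eq_single i]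
        · simp
        · intro j _ hj
          simp [Pi.single_eq_of_ne hj]
        · intro h
          exact absurd (Finset.mem_univ _) h
      have h6 : ∀ t, w t ^ ((M • (Pi.single i 1 - Pi.single j 1 : Fin 6 → ℤ)) t) =
          w t ^ (Pi.single i M : Fin 6 → ℤ) t / w t ^ (Pi.single j M : Fin 6 → ℤ) t := by
        intro t
        rw [← zpow_sub₀ (hw0 t)]
        congr 1
        simp only [Pi.smul_apply, Pi.sub_apply, Pi.single_apply, smul_eq_mul]
        split_ifs <;> ring
      rw [Finset.prod_congr rfl fun t _ => h6 t, Finset.prod_div_distrib, h5, h5, div_zpow]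
    have h4 : Cst K (∏ t, w t ^ n t) := hn.2
    rw [h3] at h4
    exact cst_of_zpow D ((hw i).div (hw j)) hM h4)
  -- a common denominator
  obtain ⟨d, hd⟩ := IsLocalization.exist_integer_multiples_of_finset (nonZeroDivisors ℤ) (Finset.univ.image φ)
  have hd' : ∀ i, ∃ m : ℤ, (m : ℚ) = (d : ℤ) * φ i := by
    intro i
    obtain ⟨m, hm⟩ := hd (φ i) (Finset.mem_image_of_mem φ (Finset.mem_univ i))
    refine ⟨m, ?_⟩
    have : (algebraMap ℤ ℚ) m = (d : ℤ) • φ i := hm
    simpa [zsmul_eq_mul] using this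
  have hd0 : ((d : ℤ) : ℚ) ≠ 0 := by exact_mod_cast nonZeroDivisors.ne_zero d.2
  choose m hm using hd'
  refine ⟨m, ?_, ?_⟩
  · intro s t hst
    have h1 : (Pi.single s.1 1 + Pi.single s.2.1 1 + Pi.single s.2.2 1 -
        (Pi.single t.1 1 + Pi.single t.2.1 1 + Pi.single t.2.2 1) : Fin 6 → ℤ) ∈ N := by
      refine ⟨?_, ?_⟩
      · simp only [Pi.sub_apply, Pi.add_apply, Finset.sum_sub_distrib, Finset.sum_add_distrib, Pi.single_apply,
          Finset.sum_ite_eq', Finset.mem_univ, if_true]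
        norm_num
      · have h5 : ∀ (i : Fin 6), ∏ t, w t ^ (Pi.single i 1 : Fin 6 → ℤ) t = w i := by
          intro i
          rw [Finset.prod_eq_single i]
          · simp
          · intro j _ hj
            simp [Pi.single_eq_of_ne hj]
          · intro h
            exact absurd (Finset.mem_univ _) h
        have h6 : ∏ i, w i ^ (Pi.single s.1 1 + Pi.single s.2.1 1 + Pi.single s.2.2 1 -
            (Pi.single t.1 1 + Pi.single t.2.1 1 + Pi.single t.2.2 1) : Fin 6 → ℤ) i =
            w s.1 * w s.2.1 * w s.2.2 / (w t.1 * w t.2.1 * w t.2.2) := by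
          rw [← h5 s.1, ← h5 s.2.1, ← h5 s.2.2, ← h5 t.1, ← h5 t.2.1, ← h5 t.2.2]
          simp only [← Finset.prod_mul_distrib, ← Finset.prod_div_distrib]
          refine Finset.prod_congr rfl fun i _ => ?_
          rw [Pi.sub_apply, Pi.add_apply, Pi.add_apply, Pi.add_apply, Pi.add_apply, zpow_sub₀ (hw0 i), zpow_add₀ (hw0 i),
            zpow_add₀ (hw0 i), zpow_add₀ (hw0 i), zpow_add₀ (hw0 i)]
        rw [h6]
        exact hst
    have h2 := hφW _ h1
    simp only [Pi.sub_apply, Pi.add_apply, Pi.single_apply] at h2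
    push_cast at h2
    simp only [sub_mul, add_mul, Finset.sum_sub_distrib, Finset.sum_add_distrib, ite_mul, one_mul, zero_mul,
      Finset.sum_ite_eq', Finset.mem_univ, if_true] at h2
    have h3 : ((m s.1 + m s.2.1 + m s.2.2 : ℤ) : ℚ) = ((m t.1 + m t.2.1 + m t.2.2 : ℤ) : ℚ) := by
      push_cast
      rw [hm, hm, hm, hm, hm, hm]
      linear_combination ((d : ℤ) : ℚ) * h2
    exact_mod_cast h3
  · intro i j hij
    by_contra hcon
    apply hφ ⟨(i, j), hcon⟩
    rw [hf]
    have h1 : ((m i : ℤ) : ℚ) = ((m j : ℤ) : ℚ) := by rw [hij]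
    rw [hm, hm] at h1
    exact sub_eq_zero.2 (mul_left_cancel₀ hd0 h1)

end Pool.Agent.SIX
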