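import Pool.Agent.Helper97.SIX.Alg8

/-!
# SIX: the algebraic part, final statement
-/

set_option autoImplicit false
set_option linter.unusedSectionVars false

namespace Pool.Agent.SIX

open Pool.Agent.SL Polynomial

universe u v

variable {K : Type u} {Ω : Type v} [Field K] [Field Ω] [Algebra K Ω]

theorem alg_quad (t t' : Ω) (s r : K) (h1 : t + t' = algebraMap K Ω s) (h2 : t * t' = algebraMap K Ω r) :
    IsAlgebraic K t := by
  refine ⟨X ^ 2 - C s * X + C r, ?_, ?_⟩
  · intro h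
    have h3 := congrArg (fun q => Polynomial.coeff q 2) h
    simp at h3
  · simp only [map_add, map_sub, map_mul, map_pow, aeval_X, aeval_C]
    rw [← h1, ← h2]
    ring

theorem alg_ratio (x x' : Fin 3 → Ω) (hx' : x' ≠ 0) (h : ∀ c, ∃ κ : K, pr x x' c = algebraMap K Ω κ) (a b : Fin 3) :
    IsAlgebraic K (x a / x b) := by
  have hd : ∀ a, ∃ κ : K, x a * x' a = algebraMap K Ω κ := by
    intro a
    fin_cases a
    · exact h 0
    · exact h 1
    · exact h 2
  have hP : ∀ a b, ∃ κ : K, x a * x' b + x b * x' a = algebraMap K Ω κ := by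
    intro a b
    have h3 := h 3
    have h4 := h 4
    have h5 := h 5
    simp only [pr, Matrix.cons_val] at h3 h4 h5
    have hs : ∀ {a b : Fin 3}, (∃ κ : K, x a * x' b + x b * x' a = algebraMap K Ω κ) →
        ∃ κ : K, x b * x' a + x a * x' b = algebraMap K Ω κ := fun ⟨κ, hκ⟩ => ⟨κ, by rw [← hκ]; ring⟩
    have hdd : ∀ a, ∃ κ : K, x a * x' a + x a * x' a = algebraMap K Ω κ := fun a => by
      obtain ⟨κ, hκ⟩ := hd a
      exact ⟨κ + κ, by rw [map_add, ← hκ]⟩
    fin_cases a <;> fin_cases b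
    · exact hdd 0
    · exact h5
    · exact h4
    · exact hs h5
    · exact hdd 1
    · exact h3
    · exact hs h4
    · exact hs h3
    · exact hdd 2
  have hquot : ∀ (y z : Ω) (r s : K), y = algebraMap K Ω r → z = algebraMap K Ω s → IsAlgebraic K (y / z) := by
    rintro y z r s rfl rfl
    rw [← map_div₀]
    exact isAlgebraic_algebraMap _
  by_cases hb : x b = 0
  · rw [hb, div_zero]
    exact isAlgebraic_zero
  by_cases hb' : x' b = 0
  · obtain ⟨c, hc, hca⟩ : ∃ c, x' c ≠ 0 ∧ ((c = a) ∨ x' a = 0) := by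
      by_cases ha : x' a = 0
      · obtain ⟨c, hc⟩ := Function.ne_iff.1 hx'
        exact ⟨c, hc, Or.inr ha⟩
      · exact ⟨a, ha, Or.inl rfl⟩
    obtain ⟨s, hs⟩ := hP b c
    rw [hb', mul_zero, add_zero] at hs
    have h1 : ∃ r : K, x a * x' c = algebraMap K Ω r := by
      rcases hca with rfl | ha
      · exact hd _
      · obtain ⟨r, hr⟩ := hP a c
        rw [ha, mul_zero, add_zero] at hr
        exact ⟨r, hr⟩
    obtain ⟨r, hr⟩ := h1
    have h2 : x a / x b = (x a * x' c) / (x b * x' c) := by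
      rw [mul_div_mul_right _ _ hc]
    rw [h2]
    exact hquot _ _ r s hr hs
  · obtain ⟨β, hβ⟩ := hd b
    obtain ⟨s, hs⟩ := hP a b
    obtain ⟨r, hr⟩ := hd a
    refine alg_quad (x a / x b) (x' a / x' b) (s / β) (r / β) ?_ ?_
    · rw [map_div₀, ← hs, ← hβ]
      field_simp
    · rw [map_div₀, ← hr, ← hβ]
      field_simp

theorem vx_ex (a b c d : Fin 3 → K) : vx (ex Ω a) (ex Ω b) (ex Ω c) (ex Ω d) = ex Ω (vx a b c d) := by
  funext i
  simp only [vx, br_ex, ex, map_sub, map_mul]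

theorem dot_ex (m : Fin 3 → K) (x : Fin 3 → Ω) : dot (ex Ω m) x = lin m x := by
  rw [lin_eq]
  rfl

theorem cr_ex (a b : Fin 3 → K) : cr (ex Ω a) (ex Ω b) = ex Ω (cr a b) := by
  funext i
  fin_cases i <;> simp [cr, ex]

theorem c1_ex (L : Fin 6 → Fin 3 → K) : c1 (fun i => ex Ω (L i)) = ex Ω (c1 L) := vx_ex _ _ _ _

theorem c3_ex (L : Fin 6 → Fin 3 → K) : c3 (fun i => ex Ω (L i)) = ex Ω (c3 L) := vx_ex _ _ _ _

theorem cT_ex (L : Fin 6 → Fin 3 → K) : cT (fun i => ex Ω (L i)) = ex Ω (cT L) := by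
  funext i
  simp only [cT, c1_ex, c3_ex, br_ex]
  show _ = algebraMap K Ω (br (c1 L) (c3 L) (L 3) * L 2 i + br (c1 L) (c3 L) (L 2) * L 3 i)
  rw [map_add, map_mul, map_mul]
  rfl

theorem cC_ex (L : Fin 6 → Fin 3 → K) : cC (fun i => ex Ω (L i)) = ex Ω (cC L) := by
  have h1 : cκ (fun i => ex Ω (L i)) = algebraMap K Ω (cκ L) := by
    simp only [cκ, c1_ex, c3_ex, cT_ex, br_ex, map_div₀]
  have h2 : cl (fun i => ex Ω (L i)) = algebraMap K Ω (cl L) := by
    simp only [cl, c1_ex, c3_ex, cT_ex, br_ex, map_div₀]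
  have h3 : cμ (fun i => ex Ω (L i)) = algebraMap K Ω (cμ L) := by
    simp only [cμ, c1_ex, c3_ex, cT_ex, br_ex, map_div₀]
  have hpr : ∀ a b : Fin 3 → K, pr (ex Ω a) (ex Ω b) = ex Ω (pr a b) := by
    intro a b
    funext i
    fin_cases i <;> simp [pr, ex]
  funext i
  simp only [cC, cM, h1, h2, h3, c1_ex, c3_ex, cT_ex, hpr]
  show _ = algebraMap K Ω (pr (cT L) (cT L) i - cl L ^ 2 * pr (c3 L) (c3 L) i - 2 * cκ L * cμ L * pr (c1 L) (c3 L) i -
    cκ L ^ 2 * pr (c1 L) (c1 L) i)
  simp only [ex, map_sub, map_mul, map_pow, map_ofNat]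

theorem tan_desc (M : Fin 6 → K) (a b : Fin 3 → K) (ha : a ≠ 0) (h : Tan (ex Ω M) (ex Ω a) (ex Ω b)) : Tan M a b := by
  obtain ⟨c, hc⟩ := h
  obtain ⟨i, hi⟩ := Function.ne_iff.1 ha
  have hi' : a i ≠ 0 := hi
  have h0 : ∀ z : Fin 3 → K, algebraMap K Ω (bf M (cr a b) z) = c * algebraMap K Ω (dot a z) := by
    intro z
    have h1 := hc (ex Ω z)
    rw [cr_ex, bf_ex, dot_ex] at h1
    rw [h1]
    congr 1
    simp [lin_eq, dot, ex]
  have h1 := h0 (Pi.single i 1)
  have h2 : dot a (Pi.single i 1) = a i := by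
    fin_cases i <;> simp [dot]
  rw [h2] at h1
  have h3 : c = algebraMap K Ω (bf M (cr a b) (Pi.single i 1) / a i) := by
    rw [map_div₀, h1, mul_div_cancel_right₀]
    rw [Ne, map_eq_zero]
    exact hi'
  refine ⟨bf M (cr a b) (Pi.single i 1) / a i, fun z => ?_⟩
  apply (algebraMap K Ω).injective
  rw [h0, h3, map_mul]

/-- the algebraic part -/
theorem alg_main [CharZero K] (D : Dat K Ω) (L : Fin 6 → Fin 3 → K)
    (hG : GenPos L) (hC : NoConic L) (x x' : Fin 3 → Ω) (hx : x ≠ 0) (hx' : x' ≠ 0)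
    (hU : ∀ i j, D.U ((lin (L i) x * lin (L i) x') / (lin (L j) x * lin (L j) x'))) :
    ((∀ a b, IsAlgebraic K (x a / x b)) ∧ (∀ a b, IsAlgebraic K (x' a / x' b))) ∨
    (∃ i j m n : Fin 6, [i, j, m, n].Nodup ∧ lin (vx (L i) (L j) (L m) (L n)) x = 0 ∧
      lin (vx (L i) (L j) (L m) (L n)) x' = 0) ∨
    (∃ M : Fin 6 → K, Exc L M ∧ qf (fun i => algebraMap K Ω (M i)) x = 0 ∧ qf (fun i => algebraMap K Ω (M i)) x' = 0) := by
  classical
  have hΩ : CharZero Ω := charZero_of_injective_algebraMap (algebraMap K Ω).injective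
  set u : Fin 6 → Ω := fun i => lin (L i) x * lin (L i) x' with hu
  have hu0 : ∀ i, u i ≠ 0 := by
    intro i h0
    have h1 := (hU i i).1
    apply h1
    show u i / u i = 0
    rw [h0, zero_div]
  set x1 : Fin 3 → Ω := fun a => (u 0)⁻¹ * x a with hx1
  have hx1' : x1 ≠ 0 := by
    obtain ⟨i, hi⟩ := Function.ne_iff.1 hx
    exact Function.ne_iff.2 ⟨i, mul_ne_zero (inv_ne_zero (hu0 0)) hi⟩
  have hlin1 : ∀ m : Fin 3 → K, lin m x1 = (u 0)⁻¹ * lin m x := by
    intro m
    simp only [lin, hx1, Finset.mul_sum]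
    exact Finset.sum_congr rfl fun j _ => by ring
  set w : Fin 6 → Ω := fun i => lin (L i) x1 * lin (L i) x' with hw
  have hwu : ∀ i, w i = u i / u 0 := by
    intro i
    simp only [hw, hlin1, hu]
    rw [div_eq_inv_mul]
    ring
  have hwU : ∀ i, D.U (w i) := fun i => by
    rw [hwu]
    exact hU i 0
  -- the dual basis
  set A := evm L with hA
  have hdet : A.det ≠ 0 := by
    intro h0
    obtain ⟨g, hg0, hg⟩ := Matrix.exists_mulVec_eq_zero_iff.2 h0
    exact hg0 (hC g fun i => by rw [← evm_mulVec, ← hA, hg]; rfl)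
  have hunit : IsUnit A.det := isUnit_iff_ne_zero.2 hdet
  set M : Fin 6 → Fin 6 → K := fun i c => A⁻¹ c i with hM
  have hMq : ∀ i j, qf (M i) (L j) = if j = i then 1 else 0 := by
    intro i j
    rw [← evm_mulVec, ← hA]
    have : A.mulVec (M i) j = (A * A⁻¹) j i := rfl
    rw [this, Matrix.mul_nonsing_inv A hunit, Matrix.one_apply]
  have hsum : ∀ c, ∑ i, w i * algebraMap K Ω (M i c) = pr x1 x' c := by
    have h1 : (A.map (algebraMap K Ω)).mulVec (pr x1 x') = (A.map (algebraMap K Ω)).mulVec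
        fun c => ∑ i, w i * algebraMap K Ω (M i c) := by
      have h2 : (fun c => ∑ i, w i * algebraMap K Ω (M i c)) = ∑ i, w i • ex Ω (M i) := by
        funext c
        rw [Finset.sum_apply]
        rfl
      rw [h2, Matrix.mulVec_sum]
      funext j
      rw [hA, evm_map_mulVec, Finset.sum_apply]
      simp_rw [Matrix.mulVec_smul, Pi.smul_apply, evm_map_mulVec, qf_ex, hMq]
      rw [qf_pr_ex, Finset.sum_eq_single j]
      · rw [if_pos rfl, map_one, smul_eq_mul, mul_one]
      · intro b _ hb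
        rw [if_neg hb.symm, map_zero, smul_zero]
      · intro h
        exact absurd (Finset.mem_univ _) h
    have h3 : IsUnit (A.map (algebraMap K Ω)).det := by
      have : (A.map (algebraMap K Ω)).det = algebraMap K Ω A.det := by
        rw [RingHom.map_det]
        rfl
      rw [this, isUnit_iff_ne_zero, Ne, map_eq_zero]
      exact hdet
    have h4 := congrArg ((A.map (algebraMap K Ω))⁻¹.mulVec) h1
    rw [Matrix.mulVec_mulVec, Matrix.mulVec_mulVec, Matrix.nonsing_inv_mul _ h3, Matrix.one_mulVec, Matrix.one_mulVec] at h4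
    intro c
    exact (congrFun h4 c).symm
  obtain ⟨φ, hφ1, hφ2⟩ := exists_exp D w hwU
  set σ : Equiv.Perm (Fin 6) := Tuple.sort φ with hσ
  have hmono : Monotone (φ ∘ σ) := Tuple.monotone_sort φ
  have hge : ∀ i, φ (σ 0) ≤ φ (σ i) := fun i => hmono (Fin.zero_le i)
  have hle : ∀ i, φ (σ i) ≤ φ (σ 5) := fun i => hmono (Fin.le_last i)
  set ψ : Fin 6 → ℕ := fun i => (φ (σ i) - φ (σ 0)).toNat with hψ
  have hψ' : ∀ i, (ψ i : ℤ) = φ (σ i) - φ (σ 0) := fun i => Int.toNat_of_nonneg (sub_nonneg.2 (hge i))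
  have hψ5 : ∀ i, ((ψ 5 - ψ i : ℕ) : ℤ) = φ (σ 5) - φ (σ i) := by
    intro i
    have h1 : ψ i ≤ ψ 5 := by
      have h2 := hψ' i
      have h3 := hψ' 5
      have h4 := hle i
      omega
    rw [Nat.cast_sub h1, hψ', hψ']
    ring
  have h0 : dt (fun c => ∑ i, w (σ i) * algebraMap K Ω (M (σ i) c)) = 0 := by
    have : (fun c => ∑ i, w (σ i) * algebraMap K Ω (M (σ i) c)) = pr x1 x' := by
      funext c
      rw [← hsum c]
      exact Equiv.sum_comp σ (fun i => w i * algebraMap K Ω (M i c))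
    rw [this, dt_pr]
  have hqG : ∀ i j, qf (fun c => w (σ i) * algebraMap K Ω (M (σ i) c)) (ex Ω (L (σ j))) =
      w (σ i) * (if σ j = σ i then 1 else 0) := by
    intro i j
    have h1 : qf (fun c => w (σ i) * algebraMap K Ω (M (σ i) c)) (ex Ω (L (σ j))) =
        w (σ i) * qf (ex Ω (M (σ i))) (ex Ω (L (σ j))) := by
      simp only [qf, ex]; ring
    rw [h1, qf_ex, hMq]
    split_ifs <;> simp
  have hSys : Sys (fun i => ex Ω (L (σ i))) (fun i c => w (σ i) * algebraMap K Ω (M (σ i) c)) ψ x1 x' :=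
    { gp := by
        intro i j l h1 h2 h3
        rw [br_ex, Ne, map_eq_zero]
        exact hG _ _ _ (σ.injective.ne h1) (σ.injective.ne h2) (σ.injective.ne h3)
      val := fun i j hij => by
        rw [hqG, if_neg (σ.injective.ne hij.symm), mul_zero]
      nval := fun i => by
        rw [hqG, if_pos rfl, mul_one]
        exact (hwU _).1
      mono := fun i j hij => by
        have h1 := hmono hij
        simp only [Function.comp_apply] at h1
        have h2 := hψ' i
        have h3 := hψ' j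
        omega
      zero := by
        have := hψ' 0
        omega
      P1 := by
        refine dt_zero D (fun i => w (σ i)) (fun i => hwU _) (fun i => M (σ i)) h0 ψ fun s t hst => ?_
        have h1 := hφ1 (σ s.1, σ s.2.1, σ s.2.2) (σ t.1, σ t.2.1, σ t.2.2) hst
        simp only [hψ']
        simp only at h1
        omega
      P2 := by
        refine dt_zero D (fun i => w (σ i)) (fun i => hwU _) (fun i => M (σ i)) h0 (fun i => ψ 5 - ψ i) fun s t hst => ?_
        have h1 := hφ1 (σ s.1, σ s.2.1, σ s.2.2) (σ t.1, σ t.2.1, σ t.2.2) hst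
        simp only [hψ5]
        simp only at h1
        omega
      hs := fun c => by
        rw [← hsum c]
        exact Equiv.sum_comp σ (fun i => w i * algebraMap K Ω (M i c))
      hx := hx1'
      hy := hx' }
  rcases hSys.main with h5 | h5 | ⟨t, h1, h2, h3, h4, h5, h6, h7⟩
  · left
    have hc : ∀ i, Cst K (w i) := by
      intro i
      have h6 : φ i = φ 0 := by
        have h7 : ∀ j, φ (σ j) = φ (σ 0) := by
          intro j
          have h8 := hψ' 5
          rw [h5] at h8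
          have h9 := hge j
          have h10 := hle j
          push_cast at h8
          omega
        have h8 := h7 (σ.symm i)
        have h9 := h7 (σ.symm 0)
        rw [Equiv.apply_symm_apply] at h8 h9
        rw [h8, h9]
      have h7 := hφ2 i 0 h6
      have h8 : w 0 = 1 := by
        rw [hwu]
        exact div_self (hu0 0)
      rwa [h8, div_one] at h7
    have hpr : ∀ c, ∃ κ : K, pr x1 x' c = algebraMap K Ω κ := by
      intro c
      choose κ hκ using hc
      refine ⟨∑ i, κ i * M i c, ?_⟩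
      rw [← hsum c, map_sum]
      exact Finset.sum_congr rfl fun i _ => by rw [hκ i, map_mul]
    constructor
    · intro a b
      have h1 := alg_ratio x1 x' hx' hpr a b
      have h2 : x1 a / x1 b = x a / x b := mul_div_mul_left _ _ (inv_ne_zero (hu0 0))
      rwa [h2] at h1
    · refine alg_ratio x' x1 hx1' fun c => ?_
      obtain ⟨κ, hκ⟩ := hpr c
      refine ⟨κ, ?_⟩
      rw [← hκ]
      fin_cases c <;> simp [pr] <;> ring
  · right; left
    obtain ⟨i, j, m, n, hn, h1, h2⟩ := h5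
    refine ⟨σ i, σ j, σ m, σ n, ?_, ?_, ?_⟩
    · have := List.Nodup.map σ.injective hn
      simpa using this
    · rw [vx_ex, dot_ex, hlin1] at h1
      exact (mul_eq_zero.1 h1).resolve_left (inv_ne_zero (hu0 0))
    · rwa [vx_ex, dot_ex] at h2
  · right; right
    have e : ((fun i => ex Ω (L (σ i))) ∘ t : Fin 6 → Fin 3 → Ω) = fun i => ex Ω (L (σ (t i))) := rfl
    rw [e, cC_ex] at h1 h2 h3 h4 h5 h6 h7
    have hL : ∀ i, L i ≠ 0 := by
      intro i h0
      obtain ⟨j, l, hij, hil, hjl⟩ := (by decide : ∀ i : Fin 6, ∃ j l : Fin 6, i ≠ j ∧ i ≠ l ∧ j ≠ l) i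
      apply hG i j l hij hil hjl
      rw [h0]
      simp [br]
    refine ⟨cC fun i => L (σ (t i)), ⟨?_, t.trans σ, tan_desc _ _ _ (hL _) h2, tan_desc _ _ _ (hL _) h3,
      tan_desc _ _ _ (hL _) h4, tan_desc _ _ _ (hL _) h5⟩, ?_, h7⟩
    · rw [dt_ex, Ne, map_eq_zero] at h1
      exact h1
    · have h8 : qf (ex Ω (cC fun i => L (σ (t i)))) x1 = (u 0)⁻¹ ^ 2 * qf (ex Ω (cC fun i => L (σ (t i)))) x := by
        simp only [qf, hx1]; ring
      rw [h8] at h6
      exact (mul_eq_zero.1 h6).resolve_left (pow_ne_zero 2 (inv_ne_zero (hu0 0)))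

end Pool.Agent.SIX
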