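import Pool.Agent.Helper97.SIX.Defs
import Pool.Agent.Helper64.UD.Lin

/-!
# SIX: stubs (do not import in finished files; copy the statement)
-/

set_option autoImplicit false

namespace Pool.Agent.SIX

open Pool.Agent.SL Pool.Agent.Helper64.Vojta NumberField

universe u

/-- BLOCK A (helper97). The algebraic part. -/
theorem alg_stub {K Ω : Type u} [Field K] [CharZero K] [Field Ω] [Algebra K Ω] (D : Dat K Ω) (L : Fin 6 → Fin 3 → K)
    (hG : GenPos L) (hC : NoConic L) (x x' : Fin 3 → Ω) (hx : x ≠ 0) (hx' : x' ≠ 0)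
    (hU : ∀ i j, D.U ((lin (L i) x * lin (L i) x') / (lin (L j) x * lin (L j) x'))) :
    ((∀ a b, IsAlgebraic K (x a / x b)) ∧ (∀ a b, IsAlgebraic K (x' a / x' b))) ∨
    (∃ i j m n : Fin 6, [i, j, m, n].Nodup ∧ lin (vx (L i) (L j) (L m) (L n)) x = 0 ∧
      lin (vx (L i) (L j) (L m) (L n)) x' = 0) ∨
    (∃ M : Fin 6 → K, Exc L M ∧ qf (fun i => algebraMap K Ω (M i)) x = 0 ∧ qf (fun i => algebraMap K Ω (M i)) x' = 0) :=
  sorry

/-- BLOCK G. Affine coordinates (the point `(1 : y 0 : y 1)`), `δ` absolute. PROOF: ultraproduct over `J = ULift ℕ`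
(`δ = 1/(m+1)`, as `UD.bad_false`), separately for `dg = 1` (`x = x' = X s0`) and `dg = 2` (`x, x' = X 0, X 1`); a variant of
`UD.glueF` (`n = 2`, `q = 6`, `k₀ = ℚ`, `I = ∅`) which also says `ℓ`, `X s0` are the germs of `ℓ`, `c • (1, y)`; `alg_stub`;
the conclusions of `alg_stub` hold for almost all `p` (Los) and contradict the hypotheses on `y`. `GenPos` and `NoConic` for the germs:
the polynomials `br ..` and the 6 x 6 determinant of `qf` of the unit vectors. -/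
theorem affine_stub : ∃ δ : ℝ, 0 < δ ∧ ∀ (k : Type u) [Field k] [NumberField k] (ℓ : Fin 6 → Fin 3 → k),
    GenPos ℓ → NoConic ℓ → ∀ S : Finset (Pl k), ∃ C : ℝ, ∀ y : Fin 2 → AlgebraicClosure k, VZ.dg y ≤ 2 →
      (∀ i, ∑ j, algebraMap k (VZ.fld y) (ℓ i j) * VZ.crd y j ≠ 0) →
      (∀ i j m n : Fin 6, [i, j, m, n].Nodup →
        lin (vx (ℓ i) (ℓ j) (ℓ m) (ℓ n)) (Fin.cons 1 y : Fin 3 → AlgebraicClosure k) ≠ 0) →
      (∀ M : Fin 6 → k, Exc ℓ M →
        qf (fun i => algebraMap k (AlgebraicClosure k) (M i)) (Fin.cons 1 y : Fin 3 → AlgebraicClosure k) ≠ 0) →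
      VZ.lam ℓ S y ≤ (6 - δ) * VZ.hgt y + C := sorry

end Pool.Agent.SIX
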